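import Pool.Agent.H320.LB.StmA

/-!
helper320: the rank bound for the first `ℓ²`-Betti number; the algebraic part.
-/

set_option autoImplicit false

open Finset Matrix

namespace Pool.Agent.H320.LB

namespace ALGx

variable {Γ : Type} [Group Γ]

/-- the augmentation -/
noncomputable def aug (Γ : Type) [Group Γ] : MonoidAlgebra ℤ Γ →ₐ[ℤ] ℤ :=
  MonoidAlgebra.lift ℤ ℤ Γ 1

lemma aug_of (g : Γ) : aug Γ (MonoidAlgebra.of ℤ Γ g) = 1 := by
  rw [aug, MonoidAlgebra.lift_of, MonoidHom.one_apply]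

lemma eps_smul {ι₀ : Type} [Fintype ι₀] (ε : (ι₀ → MonoidAlgebra ℤ Γ) →+ ℤ)
    (h : ∀ (g : Γ) (v : ι₀ → MonoidAlgebra ℤ Γ), ε (MonoidAlgebra.of ℤ Γ g • v) = ε v)
    (r : MonoidAlgebra ℤ Γ) (v : ι₀ → MonoidAlgebra ℤ Γ) : ε (r • v) = aug Γ r * ε v := by
  induction r using MonoidAlgebra.induction_on with
  | of g => rw [h, aug_of, one_mul]
  | add f g hf hg => rw [add_smul, map_add, hf, hg, map_add, add_mul]
  | smul r f hf => rw [smul_assoc, map_zsmul, hf, map_smul, smul_eq_mul, smul_eq_mul, mul_assoc]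

lemma mem_of {e : ℕ} {g : Fin e → Γ} (hg : Subgroup.closure (Set.range g) = ⊤) (h : Γ) :
    MonoidAlgebra.of ℤ Γ h - 1 ∈ Submodule.span (MonoidAlgebra ℤ Γ)
      (Set.range fun j => MonoidAlgebra.of ℤ Γ (g j) - 1) := by
  have hh : h ∈ Subgroup.closure (Set.range g) := by rw [hg]; trivial
  induction hh using Subgroup.closure_induction with
  | mem x hx =>
    obtain ⟨j, rfl⟩ := hx
    exact Submodule.subset_span ⟨j, rfl⟩
  | one => rw [map_one, sub_self]; exact Submodule.zero_mem _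
  | mul x y _ _ hx hy =>
    have e1 : MonoidAlgebra.of ℤ Γ (x * y) - 1 = MonoidAlgebra.of ℤ Γ x •
        (MonoidAlgebra.of ℤ Γ y - 1) + (MonoidAlgebra.of ℤ Γ x - 1) := by
      rw [map_mul, smul_eq_mul, mul_sub, mul_one]; abel
    rw [e1]
    exact Submodule.add_mem _ (Submodule.smul_mem _ _ hy) hx
  | inv x _ hx =>
    have e1 : MonoidAlgebra.of ℤ Γ x⁻¹ - 1 = (-MonoidAlgebra.of ℤ Γ x⁻¹) •
        (MonoidAlgebra.of ℤ Γ x - 1) := by
      rw [smul_eq_mul, neg_mul, mul_sub, mul_one, ← map_mul, inv_mul_cancel, map_one]; abel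
    rw [e1]
    exact Submodule.smul_mem _ _ hx

lemma mem_sub {e : ℕ} {g : Fin e → Γ} (hg : Subgroup.closure (Set.range g) = ⊤)
    (s : MonoidAlgebra ℤ Γ) :
    s - aug Γ s • (1 : MonoidAlgebra ℤ Γ) ∈ Submodule.span (MonoidAlgebra ℤ Γ)
      (Set.range fun j => MonoidAlgebra.of ℤ Γ (g j) - 1) := by
  induction s using MonoidAlgebra.induction_on with
  | of h => rw [aug_of, one_smul]; exact mem_of hg h
  | add f g hf hg =>
    rw [map_add, add_smul]
    have e1 : f + g - (aug Γ f • (1 : MonoidAlgebra ℤ Γ) + aug Γ g • (1 : MonoidAlgebra ℤ Γ)) =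
      (f - aug Γ f • (1 : MonoidAlgebra ℤ Γ)) + (g - aug Γ g • (1 : MonoidAlgebra ℤ Γ)) := by abel
    rw [e1]
    exact Submodule.add_mem _ hf hg
  | smul r f hf =>
    rw [map_smul, smul_assoc, ← smul_sub]
    exact zsmul_mem hf r

lemma exc {e : ℕ} {g : Fin e → Γ} (hg : Subgroup.closure (Set.range g) = ⊤)
    {s : MonoidAlgebra ℤ Γ} (hs : aug Γ s = 0) :
    ∃ c : Fin e → MonoidAlgebra ℤ Γ, ∑ j, c j * (MonoidAlgebra.of ℤ Γ (g j) - 1) = s := by
  have h := mem_sub hg s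
  rw [hs, zero_smul, sub_zero, Submodule.mem_span_range_iff_exists_fun] at h
  exact h

end ALGx

open ALGx in
theorem alg : ALG := by
  intro Γ _ ι₂ ι₁ ι₀ _ _ _ _ _ _ D₁ D₀ ε hR e g hg
  classical
  have hes := eps_smul ε hR.equi
  -- the values at the basis
  set n : ι₀ → ℤ := fun i => ε (Pi.single i 1) with hn
  have hdec : ∀ v : ι₀ → MonoidAlgebra ℤ Γ, ε v = ∑ i, aug Γ (v i) * n i := by
    intro v
    have h1 : v = ∑ i, v i • (Pi.single i (1 : MonoidAlgebra ℤ Γ) : ι₀ → MonoidAlgebra ℤ Γ) := by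
      funext l
      simp [Finset.sum_apply, Pi.single_apply]
    calc ε v = ε (∑ i, v i • (Pi.single i (1 : MonoidAlgebra ℤ Γ) : ι₀ → MonoidAlgebra ℤ Γ)) := by
          rw [← h1]
      _ = _ := by
          rw [map_sum]
          exact Finset.sum_congr rfl fun i _ => hes _ _
  obtain ⟨v1, hv1⟩ := hR.surj 1
  set α : ι₀ → ℤ := fun i => aug Γ (v1 i) with hα
  have hαn : ∑ i, α i * n i = 1 := by rw [← hdec v1, hv1]
  obtain ⟨i₀, hi₀⟩ : ∃ i, α i ≠ 0 := by
    by_contra hcon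
    push Not at hcon
    rw [Finset.sum_eq_zero (fun i _ => by rw [hcon i, zero_mul])] at hαn
    exact zero_ne_one hαn
  set x0 : ι₀ → MonoidAlgebra ℤ Γ := fun i => α i • 1 with hx0
  have hεx0 : ε x0 = 1 := by
    rw [hdec, ← hαn]
    refine Finset.sum_congr rfl fun i _ => ?_
    rw [hx0, map_smul, map_one, smul_eq_mul, mul_one]
  have hy : ∀ j : Fin e, ∃ u, u ᵥ* D₀ = (MonoidAlgebra.of ℤ Γ (g j) - 1) • x0 := by
    intro j
    rw [← hR.ex0, hes, map_sub, aug_of, map_one, sub_self, zero_mul]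
  choose y hy using hy
  set w : ι₀ → ι₀ → MonoidAlgebra ℤ Γ := fun i => Pi.single i 1 - n i • x0 with hw
  have hz : ∀ i : ι₀, ∃ u, u ᵥ* D₀ = w i := by
    intro i
    rw [← hR.ex0, hw, map_sub, map_zsmul, hεx0, smul_eq_mul, mul_one]
    exact sub_self _
  choose z hz using hz
  -- the sums
  have hs : ∀ m : ι₁, ∃ c : Fin e → MonoidAlgebra ℤ Γ,
      ∑ j, c j * (MonoidAlgebra.of ℤ Γ (g j) - 1) = ∑ i, n i • D₀ m i := by
    intro m
    apply exc hg
    have h2 : ε (D₀ m) = 0 := by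
      rw [hR.ex0]
      refine ⟨Pi.single m 1, ?_⟩
      rw [Matrix.single_one_vecMul]
      rfl
    rw [hdec] at h2
    rw [map_sum, ← h2]
    refine Finset.sum_congr rfl fun i _ => ?_
    rw [map_smul, smul_eq_mul, mul_comm]
  choose c hc using hs
  set Y : Matrix (Fin e ⊕ {i : ι₀ // i ≠ i₀}) ι₁ (MonoidAlgebra ℤ Γ) :=
    fun k => Sum.elim (fun j => y j) (fun i => z i.1) k with hY
  set R : Matrix ι₁ (Fin e ⊕ {i : ι₀ // i ≠ i₀}) (MonoidAlgebra ℤ Γ) :=
    fun m k => Sum.elim (fun j => α i₀ • c m j) (fun i => α i₀ • D₀ m i.1 - α i.1 • D₀ m i₀) k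
    with hRd
  have key : ∀ m : ι₁, ((α i₀ • (1 : Matrix ι₁ ι₁ (MonoidAlgebra ℤ Γ)) - R * Y) m) ᵥ* D₀ = 0 := by
    intro m
    have hYD : ∀ k, (Y k) ᵥ* D₀ = Sum.elim (fun j => (MonoidAlgebra.of ℤ Γ (g j) - 1) • x0)
        (fun i : {i : ι₀ // i ≠ i₀} => w i.1) k := by
      intro k
      rcases k with j | i
      · exact hy j
      · exact hz i.1
    have h3 : ((α i₀ • (1 : Matrix ι₁ ι₁ (MonoidAlgebra ℤ Γ)) - R * Y) m) ᵥ* D₀ =
        ((α i₀ • (1 : Matrix ι₁ ι₁ (MonoidAlgebra ℤ Γ)) - R * Y) * D₀) m := by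
      rw [Matrix.mul_apply_eq_vecMul]
    rw [h3]
    have h33 : (α i₀ • (1 : Matrix ι₁ ι₁ (MonoidAlgebra ℤ Γ)) - R * Y) * D₀ =
        α i₀ • D₀ - R * (Y * D₀) := by
      rw [Matrix.sub_mul, Matrix.smul_mul, Matrix.one_mul, Matrix.mul_assoc]
    rw [h33]
    funext l
    have h4 : (R * (Y * D₀)) m l = ∑ k, R m k * ((Y k) ᵥ* D₀) l := by
      rw [Matrix.mul_apply]
      rfl
    have h5 : ∑ j : Fin e, α i₀ • c m j * ((MonoidAlgebra.of ℤ Γ (g j) - 1) * x0 l) =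
        α i₀ • ((∑ i, n i • D₀ m i) * x0 l) := by
      rw [← hc m, Finset.sum_mul, Finset.smul_sum]
      refine Finset.sum_congr rfl fun j _ => ?_
      rw [smul_mul_assoc, mul_assoc]
    have h6 : ∑ i : {i : ι₀ // i ≠ i₀}, (α i₀ • D₀ m i.1 - α i.1 • D₀ m i₀) * w i.1 l =
        ∑ i : ι₀, (α i₀ • D₀ m i - α i • D₀ m i₀) * w i l := by
      have h7 : ∑ i ∈ Finset.univ.erase i₀, (α i₀ • D₀ m i - α i • D₀ m i₀) * w i l =
          ∑ i : {i : ι₀ // i ≠ i₀}, (α i₀ • D₀ m i.1 - α i.1 • D₀ m i₀) * w i.1 l :=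
        Finset.sum_subtype _ (fun x => by simp) _
      rw [← h7, Finset.sum_erase]
      rw [sub_self, zero_mul]
    have h8 : ∑ i : ι₀, (α i₀ • D₀ m i) * w i l = α i₀ • D₀ m l -
        α i₀ • ((∑ i, n i • D₀ m i) * x0 l) := by
      have : ∀ i, (α i₀ • D₀ m i) * w i l = (α i₀ • D₀ m i) * (Pi.single i (1 : MonoidAlgebra ℤ Γ) : ι₀ → MonoidAlgebra ℤ Γ) l -
          α i₀ • ((n i • D₀ m i) * x0 l) := by
        intro i
        rw [hw]
        simp only [Pi.sub_apply, Pi.smul_apply, mul_sub, mul_smul_comm, smul_mul_assoc]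
        rw [smul_comm (n i) (α i₀)]
      rw [Finset.sum_congr rfl fun i _ => this i, Finset.sum_sub_distrib, ← Finset.smul_sum,
        ← Finset.sum_mul]
      congr 1
      rw [Finset.sum_eq_single l]
      · rw [Pi.single_eq_same, mul_one]
      · intro b _ hb
        rw [Pi.single_eq_of_ne (Ne.symm hb), mul_zero]
      · intro h; exact absurd (Finset.mem_univ l) h
    have h9 : ∑ i : ι₀, (α i • D₀ m i₀) * w i l = 0 := by
      have : ∀ i, (α i • D₀ m i₀) * w i l =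
          D₀ m i₀ * ((Pi.single i (α i • (1 : MonoidAlgebra ℤ Γ)) : ι₀ → MonoidAlgebra ℤ Γ) l -
            (α i * n i) • x0 l) := by
        intro i
        rw [hw]
        simp only [Pi.sub_apply, Pi.smul_apply, mul_sub, mul_smul_comm, smul_mul_assoc, mul_smul]
        have e1 : α i • (D₀ m i₀ * (Pi.single i (1 : MonoidAlgebra ℤ Γ) : ι₀ → MonoidAlgebra ℤ Γ) l) =
            D₀ m i₀ * (Pi.single i (α i • (1 : MonoidAlgebra ℤ Γ)) : ι₀ → MonoidAlgebra ℤ Γ) l := by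
          by_cases hil : l = i
          · subst hil
            rw [Pi.single_eq_same, Pi.single_eq_same, mul_smul_comm]
          · rw [Pi.single_eq_of_ne hil, Pi.single_eq_of_ne hil, mul_zero, smul_zero]
        rw [e1, smul_comm (n i) (α i)]
      rw [Finset.sum_congr rfl fun i _ => this i, ← Finset.mul_sum, Finset.sum_sub_distrib,
        ← Finset.sum_smul, hαn, one_smul]
      have h10 : ∑ i : ι₀, (Pi.single i (α i • (1 : MonoidAlgebra ℤ Γ)) : ι₀ → MonoidAlgebra ℤ Γ) l = x0 l := by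
        rw [Finset.sum_eq_single l]
        · rw [Pi.single_eq_same]
        · intro b _ hb
          rw [Pi.single_eq_of_ne (Ne.symm hb)]
        · intro h; exact absurd (Finset.mem_univ l) h
      rw [h10, sub_self, mul_zero]
    change (α i₀ • D₀ - R * (Y * D₀)) m l = 0
    rw [Matrix.sub_apply, h4, Fintype.sum_sum_type]
    simp only [hYD]
    simp only [hRd, Sum.elim_inl, Sum.elim_inr, Pi.smul_apply, smul_eq_mul]
    rw [h5, h6]
    simp only [sub_mul]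
    rw [Finset.sum_sub_distrib, h8, h9, Matrix.smul_apply]
    simp
  have ht : ∀ m : ι₁, ∃ t, t ᵥ* D₁ = (α i₀ • (1 : Matrix ι₁ ι₁ (MonoidAlgebra ℤ Γ)) - R * Y) m :=
    fun m => (hR.ex1 _).1 (key m)
  obtain ⟨T, hT⟩ : ∃ T : Matrix ι₁ ι₂ (MonoidAlgebra ℤ Γ), ∀ m, T m ᵥ* D₁ =
      (α i₀ • (1 : Matrix ι₁ ι₁ (MonoidAlgebra ℤ Γ)) - R * Y) m :=
    ⟨fun m => (ht m).choose, fun m => (ht m).choose_spec⟩
  refine ⟨α i₀, i₀, Y, R, T, hi₀, ?_⟩
  have h11 : T * D₁ =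
      α i₀ • (1 : Matrix ι₁ ι₁ (MonoidAlgebra ℤ Γ)) - R * Y := by
    funext m
    rw [Matrix.mul_apply_eq_vecMul]
    exact hT m
  rw [h11]
  abel

end Pool.Agent.H320.LB
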