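import Pool.Agent.H320.LB.StmB

/-!
helper34: the degree zero.
-/

set_option autoImplicit false

open Finset Matrix

namespace Pool.Agent.H320.LB

open Pool.Agent.H80R2
open Pool.Agent.H80R2.BC (L2 GMat vdim IsTr LInv Equi act kerA)
open Pool.Agent.H812R3
open Pool.Agent.W656.VA
open Pool.Agent.Y194.VN

namespace B0x

open Pool.Agent.TH107.AT

variable {Γ : Type} [Group Γ]

/-- change of coefficients -/
noncomputable def cz : MonoidAlgebra ℤ Γ →+* MonoidAlgebra ℂ Γ :=
  MonoidAlgebra.mapRingHom Γ (Int.castRingHom ℂ)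

theorem cX_apply {s t : ℕ} (Y : Matrix (Fin t) (Fin s) (MonoidAlgebra ℤ Γ)) (k : Fin t)
    (i : Fin s) : cX Y k i = cz (Y k i) := by
  apply MonoidAlgebra.ext
  ext g
  rw [cz, MonoidAlgebra.coeff_mapRingHom]
  rfl

/-- the pairing of a row vector with an element of `ℓ²` -/
noncomputable def phi {s : ℕ} (x : L2 (Fin s × Γ)) (v : Fin s → MonoidAlgebra ℤ Γ) : Γ → ℂ :=
  ∑ i, ra (cz (v i)) (fun h => x (i, h))

theorem phi_mop {s : ℕ} (x : L2 (Fin s × Γ)) (v : Fin s → MonoidAlgebra ℤ Γ) (g : Γ) :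
    phi x v g = mop (cX (Matrix.of fun _ : Fin 1 => v)) x (0, g) := by
  rw [mop_apply, phi, Finset.sum_apply]
  refine Finset.sum_congr rfl fun i _ => ?_
  rw [cX_apply]
  rfl

theorem phi_sub {s : ℕ} (x : L2 (Fin s × Γ)) (v w : Fin s → MonoidAlgebra ℤ Γ) :
    phi x (v - w) = phi x v - phi x w := by
  unfold phi
  rw [← Finset.sum_sub_distrib]
  refine Finset.sum_congr rfl fun i _ => ?_
  rw [Pi.sub_apply, map_sub, map_sub, LinearMap.sub_apply]

theorem phi_smul {s : ℕ} (x : L2 (Fin s × Γ)) (a : MonoidAlgebra ℤ Γ)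
    (v : Fin s → MonoidAlgebra ℤ Γ) : phi x (a • v) = ra (cz a) (phi x v) := by
  unfold phi
  rw [map_sum]
  refine Finset.sum_congr rfl fun i _ => ?_
  rw [Pi.smul_apply, smul_eq_mul, map_mul, map_mul]
  rfl

theorem phi_zsmul {s : ℕ} (x : L2 (Fin s × Γ)) (n : ℤ) (v : Fin s → MonoidAlgebra ℤ Γ) :
    phi x (n • v) = n • phi x v := by
  unfold phi
  rw [Finset.smul_sum]
  refine Finset.sum_congr rfl fun i _ => ?_
  rw [Pi.smul_apply, map_zsmul, map_zsmul, LinearMap.smul_apply]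

theorem phi_vecMul {s t : ℕ} (x : L2 (Fin s × Γ)) (D : Matrix (Fin t) (Fin s) (MonoidAlgebra ℤ Γ))
    (hx : x ∈ kerA (cf D)) (u : Fin t → MonoidAlgebra ℤ Γ) : phi x (u ᵥ* D) = 0 := by
  rw [← kr_cX, mem_kr] at hx
  have h1 : ∀ k, ∑ i, ra (cz (D k i)) (fun h => x (i, h)) = 0 := by
    intro k
    funext g
    have h2 : mop (cX D) x (k, g) = 0 := by
      rw [hx]
      rfl
    rw [mop_apply] at h2
    rw [Finset.sum_apply, Pi.zero_apply, ← h2]
    refine Finset.sum_congr rfl fun i _ => ?_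
    rw [cX_apply]
  unfold phi
  have h3 : ∀ i, ra (cz ((u ᵥ* D) i)) (fun h => x (i, h)) =
      ∑ k, ra (cz (u k)) (ra (cz (D k i)) (fun h => x (i, h))) := by
    intro i
    have h4 : (u ᵥ* D) i = ∑ k, u k * D k i := rfl
    rw [h4, map_sum, map_sum, LinearMap.sum_apply]
    refine Finset.sum_congr rfl fun k _ => ?_
    rw [map_mul, map_mul]
    rfl
  rw [Finset.sum_congr rfl fun i _ => h3 i, Finset.sum_comm]
  apply Finset.sum_eq_zero
  intro k _
  rw [← map_sum, h1, map_zero]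

theorem cz_of (g : Γ) : cz (MonoidAlgebra.of ℤ Γ g) = MonoidAlgebra.of ℂ Γ g := by
  rw [cz, MonoidAlgebra.of_apply, MonoidAlgebra.of_apply, MonoidAlgebra.mapRingHom_single, map_one]

theorem ra_of (g : Γ) (f : Γ → ℂ) (h : Γ) : ra (MonoidAlgebra.of ℂ Γ g) f h = f (h * g) := by
  rw [ra, MonoidAlgebra.lift_of]
  rfl

omit [Group Γ] in
theorem const_zero [Infinite Γ] (w : L2 (Fin 1 × Γ)) (c : ℂ) (h : ∀ g, w (0, g) = c) : c = 0 := by
  have h1 : Memℓp (fun p : Fin 1 × Γ => w p) 2 := lp.memℓp w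
  have h2 := h1.summable (by norm_num)
  have h3 : Summable (fun g : Γ => ‖w (0, g)‖ ^ (2 : ENNReal).toReal) :=
    h2.comp_injective (i := fun g : Γ => ((0 : Fin 1), g)) (fun a b hab => (Prod.mk.inj hab).2)
  simp only [h] at h3
  rw [summable_const_iff] at h3
  by_contra hc
  have h4 : (0 : ℝ) < ‖c‖ ^ (2 : ENNReal).toReal := Real.rpow_pos_of_pos (norm_pos_iff.mpr hc) _
  exact h4.ne' h3

end B0x

open B0x Pool.Agent.TH107.AT in
theorem b0 : B0 := by
  intro Γ _ _ c₂ c₁ c₀ D₁ D₀ ε hR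
  have hbot : kerA (cf D₀) = ⊥ := by
    rw [Submodule.eq_bot_iff]
    intro x hx
    have hz : ∀ v, ε v = 0 → phi x v = 0 := by
      intro v hv
      obtain ⟨u, hu⟩ := (hR.ex0 v).1 hv
      rw [← hu]
      exact phi_vecMul x D₀ hx u
    obtain ⟨x0, hx0⟩ := hR.surj 1
    have hinv : ∀ g h, phi x x0 (h * g) = phi x x0 h := by
      intro g h
      have h1 : ε (MonoidAlgebra.of ℤ Γ g • x0 - x0) = 0 := by
        rw [map_sub, hR.equi, sub_self]
      have h2 := hz _ h1
      rw [phi_sub, phi_smul, cz_of, sub_eq_zero] at h2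
      have h3 := congrFun h2 h
      rw [ra_of] at h3
      exact h3
    have hc : ∀ g, phi x x0 g = phi x x0 1 := by
      intro g
      have := hinv g 1
      rwa [one_mul] at this
    have hw : phi x x0 = 0 := by
      have h1 := const_zero (mop (cX (Matrix.of fun _ : Fin 1 => x0)) x) (phi x x0 1)
        (fun g => by rw [← phi_mop, hc])
      funext g
      rw [hc, h1]
      rfl
    have hall : ∀ v, phi x v = 0 := by
      intro v
      have h1 : ε (v - (ε v) • x0) = 0 := by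
        rw [map_sub, map_zsmul, hx0, smul_eq_mul, mul_one, sub_self]
      have h2 := hz _ h1
      rw [phi_sub, phi_zsmul, hw, smul_zero, sub_zero] at h2
      exact h2
    ext ⟨i, g⟩
    have h1 := congrFun (hall (Pi.single i 1)) g
    rw [phi, Finset.sum_apply, Finset.sum_eq_single i] at h1
    · rw [Pi.single_eq_same, map_one, map_one] at h1
      exact h1
    · intro j _ hj
      rw [Pi.single_eq_of_ne hj, map_zero, map_zero]
      rfl
    · intro h
      exact absurd (Finset.mem_univ _) h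
  rw [hbot]
  exact vdim_bot

end Pool.Agent.H320.LB
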