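import Pool.Agent.H320.CF.Asm
import Pool.Graph.R_pool_sql_team_seeded_1acbe0a2.Y194.VN.Harm

/-!
helper320: `ℓ²`-Betti numbers of linear groups are multiples of `1 / d`.
-/

set_option autoImplicit false

open Finset

namespace Pool.Agent.H320.LB

open Pool.Agent.H80R2
open Pool.Agent.H80R2.BC (L2 GMat vdim IsTr LInv Equi act kerA)
open Pool.Agent.H812R3
open Pool.Agent.W656.VA
open Pool.Agent.Y194.VN

/-- the dimensions of kernels of matrices over `ℂ[Γ]` are multiples of `1 / d` -/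
def Quant (Γ : Type) [Group Γ] (d : ℕ) : Prop :=
  0 < d ∧ ∀ v : ℝ, Val (⊤ : Subring ℂ) Γ v → ∃ z : ℤ, (d : ℝ) * v = z

variable {Γ : Type} [Group Γ] {d : ℕ}

theorem Quant.ker (h : Quant Γ d) {s r : ℕ} (A : Matrix (Fin s) (Fin r) (MonoidAlgebra ℤ Γ)) :
    ∃ z : ℤ, (d : ℝ) * vdim (kerA (cf A)) = z :=
  h.2 _ (val_of (cf A) (R := ⊤) fun _ _ _ => Subring.mem_top _)

theorem Quant.b2 (h : Quant Γ d) (C : Cx Γ) (i : ℕ) : ∃ z : ℤ, (d : ℝ) * C.b2 i = z := by
  obtain ⟨z1, h1⟩ := h.ker (C.d i)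
  obtain ⟨z2, h2⟩ := h.ker (C.b i)
  refine ⟨z1 + z2 - d * C.m i, ?_⟩
  rw [C.b2_eq]
  push_cast
  linarith

theorem Quant.zero (h : Quant Γ d) (C : Cx Γ) (i : ℕ) (hlt : (d : ℝ) * C.b2 i < 1) :
    harm (C.b i) (C.d i) = ⊥ := by
  obtain ⟨z, hz⟩ := h.b2 C i
  apply eq_bot_of_vdim (closed_harm _ _) (linv_harm _ _)
  have h1 : (z : ℝ) < 1 := by rw [← hz]; exact hlt
  have h2 : z ≤ 0 := by
    have : z < 1 := by exact_mod_cast h1
    omega
  have h3 : (0 : ℝ) < d := by exact_mod_cast h.1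
  have h4 : (z : ℝ) ≤ 0 := by exact_mod_cast h2
  rw [← hz] at h4
  have h5 : C.b2 i ≤ 0 := by
    by_contra hc
    push Not at hc
    exact absurd h4 (not_le.2 (mul_pos h3 hc))
  exact h5

theorem Quant.b2_zero (h : Quant Γ d) (C : Cx Γ) (i : ℕ) (hlt : (d : ℝ) * C.b2 i < 1) :
    C.b2 i = 0 := by
  obtain ⟨z, hz⟩ := h.b2 C i
  have h0 : 0 ≤ C.b2 i := vdim_nonneg _
  have h1 : (z : ℝ) < 1 := by rw [← hz]; exact hlt
  have h2 : z ≤ 0 := by
    have : z < 1 := by exact_mod_cast h1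
    omega
  have h3 : (0 : ℝ) < d := by exact_mod_cast h.1
  have h4 : (z : ℝ) ≤ 0 := by exact_mod_cast h2
  rw [← hz] at h4
  nlinarith

/-- groups in the class of `CF` -/
theorem quant_of_UK {K : Type} [Field K] [CharZero K] {adic : Bool}
    (h : Pool.Agent.H320.CF.UK K adic Γ d) (hd : 0 < d) : Quant Γ d :=
  ⟨hd, fun v hv => h.int v hv⟩

/-- linear groups -/
theorem quant_linear (K : Type) [Field K] [CharZero K] {n d : ℕ} (hd : 0 < d)
    (hfin : ∀ H : Subgroup (Matrix (Fin n) (Fin n) K)ˣ, Finite H → Nat.card H ∣ d)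
    (f : Γ →* (Matrix (Fin n) (Fin n) K)ˣ) (hf : Function.Injective f) :
    Quant Γ (Pool.Agent.H320.CF.fc K false n * d) := by
  open Pool.Agent.H320.CF in
  have h1 : UK K false (Matrix (Fin n) (Fin n) K)ˣ (fc K false n * d) :=
    of_loc hd (finDvd_of (algebraMap (integralClosure ℤ K) K) Subtype.val_injective hfin)
      (emb_of_locAugK (locAugK_self K) n)
  refine quant_of_UK (UK.sub f hf h1) (Nat.mul_pos ?_ hd)
  unfold Pool.Agent.H320.CF.fc
  split_ifs
  · exact one_pos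
  · positivity

theorem nonReal_of_sqrt {K : Type} [Field K] [CharZero K] {x : K} (hx : x ^ 2 = -1) :
    Pool.Agent.H320.CF.NonReal K := by
  have h4 : IsPrimitiveRoot (algebraMap K (AlgebraicClosure K) x) (2 ^ 2) := by
    have hx2 : (algebraMap K (AlgebraicClosure K) x) ^ 2 = -1 := by
      rw [← map_pow, hx, map_neg, map_one]
    refine IsPrimitiveRoot.iff (k := 2 ^ 2) (by norm_num) |>.2 ⟨?_, ?_⟩
    · rw [show (2 : ℕ) ^ 2 = 2 * 2 from rfl, pow_mul, hx2]
      norm_num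
    · intro l h0 hl
      have h3 : l = 1 ∨ l = 2 ∨ l = 3 := by
        have : l < 4 := hl
        omega
      rcases h3 with rfl | rfl | rfl
      · rw [pow_one]
        intro h
        rw [h, one_pow] at hx2
        norm_num at hx2
      · rw [hx2]
        norm_num
      · intro h
        rw [pow_succ, hx2] at h
        have h5 : algebraMap K (AlgebraicClosure K) x = -1 := by linear_combination -h
        rw [h5] at hx2
        norm_num at hx2
  refine ⟨2, le_rfl, _, 2 * x, h4, ?_⟩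
  have h0 : algebraMap K (AlgebraicClosure K) x ≠ 0 := h4.ne_zero (by norm_num)
  have hx2 : (algebraMap K (AlgebraicClosure K) x) ^ 2 = -1 := by
    rw [← map_pow, hx, map_neg, map_one]
  rw [map_mul, map_ofNat]
  field_simp
  rw [hx2]
  ring

theorem fc_eq_one {K : Type} [Field K] [CharZero K] {x : K} (hx : x ^ 2 = -1) (n : ℕ) :
    Pool.Agent.H320.CF.fc K false n = 1 := by
  unfold Pool.Agent.H320.CF.fc
  rw [if_pos (Or.inr (nonReal_of_sqrt hx))]

end Pool.Agent.H320.LB
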