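import Pool.Agent.H320.LB.StmC

/-!
helper972, for helper320: exactness of the Fox resolution of a presentation.
-/

set_option autoImplicit false
set_option linter.unusedSectionVars false

open Finset Matrix

namespace Pool.Agent.H320.LB

namespace EXFx

open Pool.Agent.Helper777.Prof (Wr mag mag_m)

section aff

variable {G M : Type} [Group G] [AddCommGroup M] [Module (MonoidAlgebra ℤ G) M]

/-- the affine group of a module -/
@[ext] structure Aff (G M : Type) where
  v : M
  m : G

namespace Aff

noncomputable instance : Mul (Aff G M) :=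
  ⟨fun a b => ⟨a.v + (MonoidAlgebra.of ℤ G a.m) • b.v, a.m * b.m⟩⟩
noncomputable instance : One (Aff G M) := ⟨⟨0, 1⟩⟩
noncomputable instance : Inv (Aff G M) :=
  ⟨fun a => ⟨-((MonoidAlgebra.of ℤ G a.m⁻¹) • a.v), a.m⁻¹⟩⟩

theorem mul_v (a b : Aff G M) : (a * b).v = a.v + (MonoidAlgebra.of ℤ G a.m) • b.v := rfl
theorem mul_m (a b : Aff G M) : (a * b).m = a.m * b.m := rfl
theorem one_v : (1 : Aff G M).v = 0 := rfl
theorem one_m : (1 : Aff G M).m = 1 := rfl
theorem inv_v (a : Aff G M) : (a⁻¹).v = -((MonoidAlgebra.of ℤ G a.m⁻¹) • a.v) := rfl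
theorem inv_m (a : Aff G M) : (a⁻¹).m = a.m⁻¹ := rfl

noncomputable instance : Group (Aff G M) :=
  Group.ofLeftAxioms
    (by
      intro a b c
      ext1
      · simp only [mul_v, mul_m, map_mul, smul_add, mul_smul, add_assoc]
      · simp only [mul_m, mul_assoc])
    (by
      intro a
      ext1
      · simp only [mul_v, one_v, one_m, map_one, one_smul, zero_add]
      · simp only [mul_m, one_m, one_mul])
    (by
      intro a
      ext1
      · simp only [mul_v, inv_v, inv_m, one_v, neg_add_cancel]
      · simp only [mul_m, inv_m, one_m, inv_mul_cancel])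

end Aff

/-- the additive extension of a map on the group -/
noncomputable def phi (δ : G → M) : MonoidAlgebra ℤ G →+ M :=
  (Finsupp.liftAddHom fun g => (smulAddHom ℤ M).flip (δ g)).comp
    (MonoidAlgebra.coeffAddEquiv (R := ℤ) (M := G)).toAddMonoidHom

theorem phi_single (δ : G → M) (g : G) (n : ℤ) :
    phi δ (MonoidAlgebra.single g n) = n • δ g := by
  unfold phi
  simp

theorem single_smul (g : G) (n : ℤ) (x : M) :
    (MonoidAlgebra.single g n : MonoidAlgebra ℤ G) • x = n • (MonoidAlgebra.of ℤ G g • x) := by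
  have h : (MonoidAlgebra.single g n : MonoidAlgebra ℤ G) = n • MonoidAlgebra.of ℤ G g := by
    rw [MonoidAlgebra.of_apply, MonoidAlgebra.smul_single, smul_eq_mul, mul_one]
  rw [h, smul_assoc]

theorem phi_mul (δ : G → M) (hδ : ∀ g h, δ (g * h) = δ g + MonoidAlgebra.of ℤ G g • δ h) (x : G)
    (s : MonoidAlgebra ℤ G) : phi δ (s * (MonoidAlgebra.of ℤ G x - 1)) = s • δ x := by
  induction s using MonoidAlgebra.induction_linear with
  | zero => rw [zero_mul, map_zero, zero_smul]
  | add a b ha hb => rw [add_mul, map_add, ha, hb, add_smul]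
  | single g n =>
    have h1 : (MonoidAlgebra.single g n : MonoidAlgebra ℤ G) * (MonoidAlgebra.of ℤ G x - 1) =
        MonoidAlgebra.single (g * x) n - MonoidAlgebra.single g n := by
      rw [mul_sub, mul_one, MonoidAlgebra.of_apply, MonoidAlgebra.single_mul_single, mul_one]
    rw [h1, map_sub, phi_single, phi_single, hδ, single_smul, smul_add, add_sub_cancel_left]

end aff

section fund

variable {G V : Type} [Group G] [Fintype V]

/-- the boundary operator from the 1-chains to the 0-chains -/
noncomputable def bd (x : V → G) (c : V → MonoidAlgebra ℤ G) : MonoidAlgebra ℤ G :=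
  ∑ v, c v * (MonoidAlgebra.of ℤ G (x v) - 1)

theorem bd_add (x : V → G) (c c' : V → MonoidAlgebra ℤ G) : bd x (c + c') = bd x c + bd x c' := by
  unfold bd
  rw [← Finset.sum_add_distrib]
  exact Finset.sum_congr rfl fun v _ => by rw [Pi.add_apply, add_mul]

theorem bd_smul (x : V → G) (s : MonoidAlgebra ℤ G) (c : V → MonoidAlgebra ℤ G) :
    bd x (s • c) = s * bd x c := by
  unfold bd
  rw [Finset.mul_sum]
  exact Finset.sum_congr rfl fun v _ => by rw [Pi.smul_apply, smul_eq_mul, mul_assoc]

theorem bd_neg (x : V → G) (c : V → MonoidAlgebra ℤ G) : bd x (-c) = -bd x c := by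
  unfold bd
  rw [← Finset.sum_neg_distrib]
  exact Finset.sum_congr rfl fun v _ => by rw [Pi.neg_apply, neg_mul]

/-- the fundamental formula -/
theorem fund [DecidableEq V] (π : FreeGroup V →* G) (w : FreeGroup V) :
    bd (fun v => π (FreeGroup.of v)) (mag π w).v = MonoidAlgebra.of ℤ G (π w) - 1 := by
  induction w using FreeGroup.induction_on with
  | C1 =>
    rw [map_one, map_one, map_one, sub_self, Wr.one_v]
    unfold bd
    simp
  | of v =>
    have h : (mag π (FreeGroup.of v)).v = Pi.single v 1 := by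
      unfold mag
      rw [FreeGroup.lift_apply_of]
    rw [h]
    unfold bd
    rw [Finset.sum_eq_single v]
    · rw [Pi.single_eq_same, one_mul]
    · intro b _ hb
      rw [Pi.single_eq_of_ne hb, zero_mul]
    · intro h
      exact absurd (Finset.mem_univ v) h
  | inv_of v h =>
    rw [map_inv, Wr.inv_v, bd_neg, bd_smul, h, mag_m, mul_sub, ← map_mul, inv_mul_cancel, map_one,
      mul_one, map_inv π, neg_sub]
  | mul a b ha hb =>
    rw [map_mul, Wr.mul_v, bd_add, bd_smul, ha, hb, mag_m, map_mul, map_mul]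
    noncomm_ring

end fund

section main

variable (K : Pool.Agent.R655.LI.Cx) [Fintype K.V] [Fintype K.R]

open Pool.Agent.R655.LI (fox)

/-- the span of the boundaries of the 2-cells -/
noncomputable abbrev S : Submodule (MonoidAlgebra ℤ K.Pi) (K.V → MonoidAlgebra ℤ K.Pi) :=
  Submodule.span (MonoidAlgebra ℤ K.Pi) (Set.range fun j => fox K (K.r j))

open Classical in
/-- the crossed homomorphism to the quotient -/
theorem exists_delta : ∃ δ : K.Pi → (K.V → MonoidAlgebra ℤ K.Pi) ⧸ S K,
    (∀ g h, δ (g * h) = δ g + MonoidAlgebra.of ℤ K.Pi g • δ h) ∧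
    ∀ v, δ (PresentedGroup.of v) = (S K).mkQ (Pi.single v 1) := by
  let Q : Wr ℤ K.Pi K.V →* Aff K.Pi ((K.V → MonoidAlgebra ℤ K.Pi) ⧸ S K) :=
    { toFun := fun w => ⟨(S K).mkQ w.v, w.m⟩
      map_one' := by
        ext1
        · show (S K).mkQ 0 = 0
          rw [map_zero]
        · rfl
      map_mul' := by
        intro a b
        ext1
        · show (S K).mkQ (a.v + MonoidAlgebra.of ℤ K.Pi a.m • b.v) = _
          rw [map_add, map_smul]
          rfl
        · rfl }
  have hfox : ∀ w, (mag (PresentedGroup.mk (Set.range K.r)) w).v = fox K w := fun _ => rfl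
  let f : K.V → Aff K.Pi ((K.V → MonoidAlgebra ℤ K.Pi) ⧸ S K) :=
    fun v => ⟨(S K).mkQ (Pi.single v 1), PresentedGroup.of v⟩
  have hf : FreeGroup.lift f = Q.comp (mag (PresentedGroup.mk (Set.range K.r))) := by
    ext v
    · simp only [FreeGroup.lift_apply_of, MonoidHom.comp_apply, mag]
      rfl
    · simp only [FreeGroup.lift_apply_of, MonoidHom.comp_apply, mag]
      rfl
  have hrel : ∀ r ∈ Set.range K.r, FreeGroup.lift f r = 1 := by
    rintro _ ⟨j, rfl⟩
    rw [hf]
    apply Aff.ext
    · show (S K).mkQ (mag (PresentedGroup.mk (Set.range K.r)) (K.r j)).v = 0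
      rw [hfox]
      rw [Submodule.mkQ_apply, Submodule.Quotient.mk_eq_zero]
      exact Submodule.subset_span ⟨j, rfl⟩
    · show (mag (PresentedGroup.mk (Set.range K.r)) (K.r j)).m = 1
      rw [mag_m]
      exact PresentedGroup.one_of_mem ⟨j, rfl⟩
  let Φ : K.Pi →* Aff K.Pi ((K.V → MonoidAlgebra ℤ K.Pi) ⧸ S K) := PresentedGroup.toGroup hrel
  have hm : ∀ g, (Φ g).m = g := by
    let P : Aff K.Pi ((K.V → MonoidAlgebra ℤ K.Pi) ⧸ S K) →* K.Pi :=
      { toFun := fun a => a.m, map_one' := rfl, map_mul' := fun _ _ => rfl }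
    have h : P.comp Φ = MonoidHom.id K.Pi := by
      apply PresentedGroup.ext
      intro v
      show (Φ (PresentedGroup.of v)).m = PresentedGroup.of v
      show (PresentedGroup.toGroup hrel (PresentedGroup.of v)).m = _
      rw [PresentedGroup.toGroup.of]
    intro g
    exact DFunLike.congr_fun h g
  refine ⟨fun g => (Φ g).v, fun g h => ?_, fun v => ?_⟩
  · show (Φ (g * h)).v = _
    rw [map_mul, Aff.mul_v, hm]
  · show (PresentedGroup.toGroup hrel (PresentedGroup.of v)).v = _
    rw [PresentedGroup.toGroup.of]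

/-- the elements `g - 1` are in the left ideal of the boundaries -/
theorem sub_one_mem (g : K.Pi) : MonoidAlgebra.of ℤ K.Pi g - 1 ∈
    Submodule.span (MonoidAlgebra ℤ K.Pi)
      (Set.range fun v : K.V => MonoidAlgebra.of ℤ K.Pi (PresentedGroup.of v) - 1) := by
  have hg : g ∈ Subgroup.closure (Set.range (PresentedGroup.of : K.V → K.Pi)) := by
    rw [PresentedGroup.closure_range_of]
    trivial
  induction hg using Subgroup.closure_induction with
  | mem x hx =>
    obtain ⟨v, rfl⟩ := hx
    exact Submodule.subset_span ⟨v, rfl⟩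
  | one =>
    rw [map_one, sub_self]
    exact Submodule.zero_mem _
  | mul x y _ _ hx hy =>
    have h : MonoidAlgebra.of ℤ K.Pi (x * y) - 1 =
        MonoidAlgebra.of ℤ K.Pi x • (MonoidAlgebra.of ℤ K.Pi y - 1) +
          (MonoidAlgebra.of ℤ K.Pi x - 1) := by
      rw [map_mul, smul_eq_mul]
      noncomm_ring
    rw [h]
    exact Submodule.add_mem _ (Submodule.smul_mem _ _ hy) hx
  | inv x _ hx =>
    have h : MonoidAlgebra.of ℤ K.Pi x⁻¹ - 1 =
        (-MonoidAlgebra.of ℤ K.Pi x⁻¹) • (MonoidAlgebra.of ℤ K.Pi x - 1) := by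
      rw [smul_eq_mul, neg_mul, mul_sub, ← map_mul, inv_mul_cancel, map_one, mul_one, neg_sub]
    rw [h]
    exact Submodule.smul_mem _ _ hx

/-- the augmentation -/
noncomputable def au (G : Type) [Group G] : MonoidAlgebra ℤ G →ₐ[ℤ] ℤ :=
  MonoidAlgebra.lift ℤ ℤ G (1 : G →* ℤ)

theorem au_single (G : Type) [Group G] (g : G) (n : ℤ) : au G (MonoidAlgebra.single g n) = n := by
  unfold au
  rw [MonoidAlgebra.lift_single]
  simp

theorem au_of (G : Type) [Group G] (g : G) : au G (MonoidAlgebra.of ℤ G g) = 1 := by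
  rw [MonoidAlgebra.of_apply, au_single]

theorem aug_mem (s : MonoidAlgebra ℤ K.Pi) : s - MonoidAlgebra.single 1 (au K.Pi s) ∈
    Submodule.span (MonoidAlgebra ℤ K.Pi)
      (Set.range fun v : K.V => MonoidAlgebra.of ℤ K.Pi (PresentedGroup.of v) - 1) := by
  induction s using MonoidAlgebra.induction_linear with
  | zero =>
    rw [map_zero, MonoidAlgebra.single_zero, sub_self]
    exact Submodule.zero_mem _
  | add a b ha hb =>
    have h := Submodule.add_mem _ ha hb
    rw [map_add, MonoidAlgebra.single_add]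
    rwa [add_sub_add_comm]
  | single g n =>
    rw [au_single]
    have h : (MonoidAlgebra.single g n : MonoidAlgebra ℤ K.Pi) - MonoidAlgebra.single 1 n =
        n • (MonoidAlgebra.of ℤ K.Pi g - 1) := by
      rw [smul_sub, MonoidAlgebra.of_apply, MonoidAlgebra.one_def, MonoidAlgebra.smul_single,
        MonoidAlgebra.smul_single, smul_eq_mul, mul_one]
    rw [h]
    exact zsmul_mem (sub_one_mem K g) n

end main

end EXFx

open EXFx

theorem exf : EXF := by
  classical
  intro K _ _
  let ε : (Unit → MonoidAlgebra ℤ K.Pi) →+ ℤ :=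
    ((au K.Pi : MonoidAlgebra ℤ K.Pi →+* ℤ) : MonoidAlgebra ℤ K.Pi →+ ℤ).comp
      (Pi.evalAddMonoidHom _ ())
  have hε : ∀ v, ε v = au K.Pi (v ()) := fun v => rfl
  have hD0 : ∀ u : K.V → MonoidAlgebra ℤ K.Pi,
      u ᵥ* (Matrix.of fun (v : K.V) (_ : Unit) =>
        MonoidAlgebra.of ℤ K.Pi (PresentedGroup.of v) - 1) =
      fun _ => bd (fun v : K.V => (PresentedGroup.of v : K.Pi)) u := by
    intro u
    funext i
    rfl
  have hD1 : ∀ u : K.R → MonoidAlgebra ℤ K.Pi,
      u ᵥ* (Matrix.of fun j v => Pool.Agent.R655.LI.fox K (K.r j) v) =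
      ∑ j, u j • Pool.Agent.R655.LI.fox K (K.r j) := by
    intro u
    funext i
    rw [Finset.sum_apply]
    rfl
  have hπ : (fun v : K.V => (PresentedGroup.of v : K.Pi)) =
      fun v => PresentedGroup.mk (Set.range K.r) (FreeGroup.of v) := rfl
  have hbd0 : ∀ j, bd (fun v : K.V => (PresentedGroup.of v : K.Pi))
      (Pool.Agent.R655.LI.fox K (K.r j)) = 0 := by
    intro j
    have h := fund (PresentedGroup.mk (Set.range K.r)) (K.r j)
    have h2 : PresentedGroup.mk (Set.range K.r) (K.r j) = 1 :=
      PresentedGroup.one_of_mem ⟨j, rfl⟩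
    rw [h2, map_one, sub_self] at h
    rw [hπ]
    exact h
  refine ⟨ε, ⟨?_, ?_, ?_, ?_⟩⟩
  · intro n
    refine ⟨fun _ => MonoidAlgebra.single 1 n, ?_⟩
    rw [hε, au_single]
  · intro g v
    rw [hε, hε, Pi.smul_apply, smul_eq_mul, map_mul, au_of, one_mul]
  · intro v
    constructor
    · intro h
      rw [hε] at h
      have h1 := aug_mem K (v ())
      rw [h, MonoidAlgebra.single_zero, sub_zero,
        Submodule.mem_span_range_iff_exists_fun] at h1
      obtain ⟨c, hc⟩ := h1
      refine ⟨c, ?_⟩
      rw [hD0]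
      funext i
      rw [← hc]
      rfl
    · rintro ⟨u, rfl⟩
      rw [hD0, hε]
      unfold bd
      rw [map_sum]
      refine Finset.sum_eq_zero fun w _ => ?_
      rw [map_mul, map_sub, au_of, map_one, sub_self, mul_zero]
  · intro v
    constructor
    · intro h
      obtain ⟨δ, h1, h2⟩ := exists_delta K
      have h3 : bd (fun v : K.V => (PresentedGroup.of v : K.Pi)) v = 0 := by
        have := congr_fun h ()
        rw [hD0] at this
        exact this
      have h4 : phi δ (bd (fun v : K.V => (PresentedGroup.of v : K.Pi)) v) = (S K).mkQ v := by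
        unfold bd
        rw [map_sum]
        have h5 : ∀ w : K.V, phi δ (v w * (MonoidAlgebra.of ℤ K.Pi (PresentedGroup.of w) - 1)) =
            (S K).mkQ (v w • Pi.single w 1) := by
          intro w
          rw [phi_mul δ h1, h2, map_smul]
        rw [Finset.sum_congr rfl fun w _ => h5 w, ← map_sum]
        congr 1
        funext i
        rw [Finset.sum_apply, Finset.sum_eq_single i]
        · rw [Pi.smul_apply, Pi.single_eq_same, smul_eq_mul, mul_one]
        · intro b _ hb
          rw [Pi.smul_apply, Pi.single_eq_of_ne hb.symm, smul_zero]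
        · intro h
          exact absurd (Finset.mem_univ i) h
      rw [h3, map_zero] at h4
      have h6 : v ∈ S K := by
        rw [← Submodule.Quotient.mk_eq_zero]
        exact h4.symm
      rw [Submodule.mem_span_range_iff_exists_fun] at h6
      obtain ⟨c, hc⟩ := h6
      exact ⟨c, by rw [hD1, hc]⟩
    · rintro ⟨u, rfl⟩
      rw [hD1, hD0]
      funext i
      have key : ∀ s : Finset K.R, bd (fun v : K.V => (PresentedGroup.of v : K.Pi))
          (∑ j ∈ s, u j • Pool.Agent.R655.LI.fox K (K.r j)) = 0 := by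
        intro s
        induction s using Finset.induction_on with
        | empty =>
          rw [Finset.sum_empty]
          unfold bd
          simp
        | insert a s ha ih =>
          rw [Finset.sum_insert ha, bd_add, bd_smul, hbd0, mul_zero, ih, add_zero]
      exact key _

end Pool.Agent.H320.LB
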