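import Pool.Agent.H320.LB.StmC

/-!
helper384: injectivity on row vectors from the absence of harmonic cochains.
-/

set_option autoImplicit false

open Finset Matrix

namespace Pool.Agent.H320.LB

open Pool.Agent.H80R2
open Pool.Agent.H80R2.BC (L2 GMat vdim IsTr LInv Equi act kerA)
open Pool.Agent.H812R3
open Pool.Agent.W656.VA
open Pool.Agent.TH107.AT
open Pool.Agent.Y194.VN

theorem inj : INJ := by
  classical
  intro Γ _ r g D hD u hu
  set U : Matrix (Fin 1) (Fin r) (MonoidAlgebra ℤ Γ) := Matrix.of fun _ j => u j with hU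
  have hUD : U * D = 0 := by
    ext1 a b
    have := congrFun hu b
    simpa [Matrix.mul_apply, Matrix.vecMul, dotProduct, hU] using this
  have h0 : mop (cX (0 : Matrix (Fin 1) (Fin g) (MonoidAlgebra ℤ Γ))) = 0 := by
    have h5 : cX (0 : Matrix (Fin 1) (Fin g) (MonoidAlgebra ℤ Γ)) =
        (0 : ℂ) • cX (0 : Matrix (Fin 1) (Fin g) (MonoidAlgebra ℤ Γ)) := by
      rw [zero_smul]
      ext1 k i
      apply MonoidAlgebra.ext
      ext g
      exact Int.cast_zero
    rw [h5, mop_smul, zero_smul]
  have h1 : (mop (cX U)).comp (mop (cX D)) = 0 := by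
    rw [← mop_mul, ← cX_mul, hUD, h0]
  have h2 : (ContinuousLinearMap.adjoint (mop (cX D))).comp
      (ContinuousLinearMap.adjoint (mop (cX U))) = 0 := by
    rw [← ContinuousLinearMap.adjoint_comp, h1, map_zero]
  have hker : kr (ContinuousLinearMap.adjoint (mop (cX D))) = ⊥ := by
    rw [harm_eq] at hD
    rw [eq_bot_iff] at hD ⊢
    intro x hx
    refine hD ⟨?_, hx⟩
    intro k
    exact Fin.elim0 k
  have h3 : ContinuousLinearMap.adjoint (mop (cX U)) = 0 := by
    apply ContinuousLinearMap.ext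
    intro z
    have h4 : ContinuousLinearMap.adjoint (mop (cX U)) z ∈
        kr (ContinuousLinearMap.adjoint (mop (cX D))) := by
      rw [mem_kr]
      exact congrArg (fun T => T z) h2
    rw [hker, Submodule.mem_bot] at h4
    rw [h4]
    rfl
  have h5 : mop (cX U) = 0 := by
    rw [← ContinuousLinearMap.adjoint_adjoint (mop (cX U)), h3, map_zero]
  funext j
  apply MonoidAlgebra.ext
  ext h
  have h6 := mop_de (cX U) j h 0 1
  rw [h5, inv_one, one_mul] at h6
  have h7 : ((cX U 0 j).coeff h : ℂ) = (((u j).coeff h : ℤ) : ℂ) := rfl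
  rw [h7] at h6
  have h8 : (((u j).coeff h : ℤ) : ℂ) = 0 := h6.symm
  exact_mod_cast h8

end Pool.Agent.H320.LB
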