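import Pool.Agent.H320.LB.Base

/-!
helper320: linear groups with a common multiple of the orders of the finite subgroups.
-/

set_option autoImplicit false

namespace Pool.Agent.H320.LB

/-- `d` is a positive common multiple of the orders of the finite subgroups of `G`. -/
def Common (G : Type) [Group G] (d : ℕ) : Prop :=
  0 < d ∧ ∀ H : Subgroup G, Finite H → Nat.card H ∣ d

/-- The group `Γ` embeds in `GL_n (K)`, where `K` is a field of characteristic zero, `d` is a
positive common multiple of the orders of the finite subgroups of `GL_n (K)`, and `D = d` if `K`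
contains a square root of `-1`; if not, then `D = 2 ^ ⌊n / 2⌋ d`. -/
def LinearWith (Γ : Type) [Group Γ] (D : ℕ) : Prop :=
  ∃ (K : Type) (_ : Field K) (_ : CharZero K) (n d : ℕ),
    (∃ f : Γ →* (Matrix (Fin n) (Fin n) K)ˣ, Function.Injective f) ∧
    Common (Matrix (Fin n) (Fin n) K)ˣ d ∧
    (((∃ x : K, x ^ 2 = -1) ∧ D = d) ∨ D = 2 ^ (n / 2) * d)

theorem LinearWith.quant {Γ : Type} [Group Γ] {D : ℕ} (h : LinearWith Γ D) : Quant Γ D := by
  obtain ⟨K, i1, i2, n, d, ⟨f, hf⟩, hd, hD⟩ := h
  have h1 := quant_linear K hd.1 hd.2 f hf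
  rcases hD with ⟨⟨x, hx⟩, rfl⟩ | rfl
  · rwa [fc_eq_one hx, one_mul] at h1
  · have h2 : Pool.Agent.H320.CF.fc K false n ∣ 2 ^ (n / 2) := by
      unfold Pool.Agent.H320.CF.fc
      split_ifs
      · exact one_dvd _
      · exact dvd_rfl
    obtain ⟨c, hc⟩ := h2
    refine ⟨Nat.mul_pos (by positivity) hd.1, fun v hv => ?_⟩
    obtain ⟨z, hz⟩ := h1.2 v hv
    refine ⟨c * z, ?_⟩
    rw [hc]
    push_cast at hz ⊢
    rw [← hz]
    ring

end Pool.Agent.H320.LB
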