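import Pool.Agent.H320.LB.Stm
import Pool.Graph.R_pool_sql_team_seeded_2aa45f1a.Q103.SG.Free

/-!
helper320: statements, second part.
-/

set_option autoImplicit false

open Finset Matrix

namespace Pool.Agent.H320.LB

open Pool.Agent.H80R2
open Pool.Agent.H80R2.BC (L2 GMat vdim IsTr LInv Equi act kerA)
open Pool.Agent.H812R3
open Pool.Agent.W656.VA
open Pool.Agent.Y194.VN

/-- the degree zero -/
def B0 : Prop := ∀ (Γ : Type) [Group Γ] [Infinite Γ] (c₂ c₁ c₀ : ℕ)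
  (D₁ : Matrix (Fin c₂) (Fin c₁) (MonoidAlgebra ℤ Γ))
  (D₀ : Matrix (Fin c₁) (Fin c₀) (MonoidAlgebra ℤ Γ)) (ε : (Fin c₀ → MonoidAlgebra ℤ Γ) →+ ℤ),
  Res Γ D₁ D₀ ε → vdim (kerA (cf D₀)) = 0

/-- no harmonic cochains of degree one: the reduced first cohomology vanishes -/
def HAP : Prop := ∀ (Γ : Type) [Group Γ] (c₂ c₁ c₀ : ℕ)
  (D₁ : Matrix (Fin c₂) (Fin c₁) (MonoidAlgebra ℤ Γ))
  (D₀ : Matrix (Fin c₁) (Fin c₀) (MonoidAlgebra ℤ Γ)) (ε : (Fin c₀ → MonoidAlgebra ℤ Γ) →+ ℤ),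
  Res Γ D₁ D₀ ε → harm D₀ D₁ = ⊥ → Pool.Agent.Q103.SG.Approx Γ

end Pool.Agent.H320.LB
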