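import Pool.Agent.H320.LB.Stm

/-!
helper320: the rank bound for the first `ℓ²`-Betti number; bound for the von Neumann dimension of a
kernel from a relation over the group ring (`RB0`).
-/

set_option autoImplicit false

open Finset Matrix

namespace Pool.Agent.H320.LB

open Pool.Agent.H80R2
open Pool.Agent.H80R2.BC (L2 GMat vdim IsTr LInv Equi act kerA)
open Pool.Agent.H812R3
open Pool.Agent.W656.VA
open Pool.Agent.TH107.AT
open Pool.Agent.Y194.VN

namespace RB0x

theorem cX_map {G : Type} [Group G] {a b : ℕ} (Z : Matrix (Fin a) (Fin b) (MonoidAlgebra ℤ G)) :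
    cX Z = Z.map (MonoidAlgebra.mapRingHom G (Int.castRingHom ℂ)) := by
  ext1 k i
  apply MonoidAlgebra.ext
  ext g
  rw [Matrix.map_apply, MonoidAlgebra.coeff_mapRingHom]
  rfl

theorem cX_add {G : Type} [Group G] {a b : ℕ}
    (Z W : Matrix (Fin a) (Fin b) (MonoidAlgebra ℤ G)) : cX (Z + W) = cX Z + cX W := by
  rw [cX_map, cX_map, cX_map, Matrix.map_add]
  exact map_add _

theorem cX_zsmul_one {G : Type} [Group G] {r : ℕ} (a : ℤ) :
    cX (a • (1 : Matrix (Fin r) (Fin r) (MonoidAlgebra ℤ G))) =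
      (a : ℂ) • (1 : Matrix (Fin r) (Fin r) (MonoidAlgebra ℂ G)) := by
  rw [cX_map]
  ext1 k i
  rw [Matrix.map_apply, Matrix.smul_apply, Matrix.smul_apply, map_zsmul, Int.cast_smul_eq_zsmul]
  congr 1
  by_cases h : k = i
  · rw [h, Matrix.one_apply_eq, Matrix.one_apply_eq, map_one]
  · rw [Matrix.one_apply_ne h, Matrix.one_apply_ne h, map_zero]

end RB0x

open RB0x in
theorem rb0 : RB0 := by
  intro Γ _ m s r a ha D Y R T h
  have h1 : cX R * cX Y + cX T * cX D =
      (a : ℂ) • (1 : Matrix (Fin r) (Fin r) (MonoidAlgebra ℂ Γ)) := by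
    rw [← cX_mul, ← cX_mul, ← cX_add, h, cX_zsmul_one]
  have hinj : ∀ x ∈ kerA (cf D), mop (cX Y) x = 0 → x = 0 := by
    intro x hx h0
    rw [← kr_cX, mem_kr] at hx
    have h2 : mop (cX R * cX Y + cX T * cX D) x = 0 := by
      rw [mop_add, mop_mul, mop_mul]
      show mop (cX R) (mop (cX Y) x) + mop (cX T) (mop (cX D) x) = 0
      rw [h0, hx, map_zero, map_zero, add_zero]
    rw [h1, mop_smul, mop_one] at h2
    have h3 : (a : ℂ) • x = 0 := h2
    exact (smul_eq_zero.1 h3).resolve_left (by exact_mod_cast ha)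
  have htop : IsClosed ((⊤ : Submodule ℂ (L2 (Fin m × Γ))) : Set (L2 (Fin m × Γ))) := by
    rw [Submodule.top_coe]
    exact isClosed_univ
  have h4 := vdim_inj_le (isClosed_kerA (cf D)) (linv_kerA _) (mop (cX Y)) (equi_mop _) htop
    (fun _ _ => Submodule.mem_top) hinj
  rwa [vdim_top, Fintype.card_fin] at h4

end Pool.Agent.H320.LB
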