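import Pool.Agent.H320.LB.Stm

/-!
helper320: the rank bound.
-/

set_option autoImplicit false

open Finset Matrix

namespace Pool.Agent.H320.LB

open Pool.Agent.H80R2
open Pool.Agent.H80R2.BC (L2 GMat vdim IsTr LInv Equi act kerA)
open Pool.Agent.H812R3
open Pool.Agent.W656.VA
open Pool.Agent.TH107.AT
open Pool.Agent.Y194.VN

theorem rb (rb0 : RB0) (alg : ALG) (res : RES) : RB := by
  classical
  intro Γ _ P hP c₂ c₁ c₀ D₁ D₀ ε hR e g hg
  have hfi : P.FiniteIndex := ⟨hP⟩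
  have : Finite (Γ ⧸ P) := Subgroup.finite_quotient_of_finiteIndex
  have i1 : Fintype (Γ ⧸ P) := Fintype.ofFinite _
  obtain ⟨ε', hR'⟩ := res Γ P c₂ c₁ c₀ D₁ D₀ ε hR
  obtain ⟨a, i₀, Y, R, T, ha, hE⟩ := alg P _ _ _ _ _ ε' hR' e g hg
  let m := Fintype.card (Fin e ⊕ {i : Fin c₀ × (Γ ⧸ P) // i ≠ i₀})
  let em : Fin m ≃ Fin e ⊕ {i : Fin c₀ × (Γ ⧸ P) // i ≠ i₀} := (Fintype.equivFin _).symm
  let es : Fin (Fintype.card (Fin c₂ × (Γ ⧸ P))) ≃ Fin c₂ × (Γ ⧸ P) := (Fintype.equivFin _).symm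
  let er : Fin (Fintype.card (Fin c₁ × (Γ ⧸ P))) ≃ Fin c₁ × (Γ ⧸ P) := (Fintype.equivFin _).symm
  let Y' : Matrix (Fin (Fintype.card (Fin c₂ × (Γ ⧸ P)))) (Fin (Fintype.card (Fin c₁ × (Γ ⧸ P))))
    (MonoidAlgebra ℤ P) := Matrix.of fun b i => resZ P D₁ (es b) (er i)
  have hb : vdim (kerA (cf Y')) ≤ m := by
    refine rb0 P m _ _ a ha Y' (Y.submatrix em er) (R.submatrix er em) (T.submatrix er es) ?_
    have h1 : Y' = (Matrix.of (resZ P D₁)).submatrix es er := rfl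
    rw [h1, Matrix.submatrix_mul_equiv, Matrix.submatrix_mul_equiv]
    have h2 : (R * Y).submatrix er er + (T * Matrix.of (resZ P D₁)).submatrix er er =
        (R * Y + T * Matrix.of (resZ P D₁)).submatrix er er := rfl
    rw [h2, hE]
    ext1 i j
    by_cases hij : i = j
    · subst hij
      rw [Matrix.submatrix_apply, Matrix.smul_apply, Matrix.smul_apply, Matrix.one_apply_eq,
        Matrix.one_apply_eq]
    · rw [Matrix.submatrix_apply, Matrix.smul_apply, Matrix.smul_apply, Matrix.one_apply_ne hij,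
        Matrix.one_apply_ne (fun h => hij (er.injective h))]
  have h1 : cf Y' = ri es er (Pool.Agent.TH107.AT.res P (cf D₁)) := by
    funext b i
    ext a
    rfl
  rw [h1, vdim_ri, vdim_res] at hb
  have h3 : (P.index : ℝ) = Fintype.card (Γ ⧸ P) := by
    rw [Subgroup.index, Nat.card_eq_fintype_card]
  rw [h3]
  have h4 : m = e + (c₀ * Fintype.card (Γ ⧸ P) - 1) := by
    show Fintype.card (Fin e ⊕ {i : Fin c₀ × (Γ ⧸ P) // i ≠ i₀}) = _
    have h6 : Fintype.card {i : Fin c₀ × (Γ ⧸ P) // i ≠ i₀} =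
        Fintype.card (Fin c₀ × (Γ ⧸ P)) - 1 := by
      rw [Fintype.card_subtype_compl, Fintype.card_subtype_eq]
    rw [Fintype.card_sum, Fintype.card_fin, h6, Fintype.card_prod, Fintype.card_fin]
  have h5 : 1 ≤ c₀ * Fintype.card (Γ ⧸ P) := by
    have : 0 < Fintype.card (Fin c₀ × (Γ ⧸ P)) := Fintype.card_pos_iff.2 ⟨i₀⟩
    rwa [Fintype.card_prod, Fintype.card_fin] at this
  rw [h4, Nat.cast_add, Nat.cast_sub h5] at hb
  push_cast at hb
  linarith

end Pool.Agent.H320.LB
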