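import Pool.Agent.H320.LB.Stm

/-!
helper372: restriction of a free resolution to a subgroup of finite index.
-/

set_option autoImplicit false

open Finset Matrix

namespace Pool.Agent.H320.LB

open Pool.Agent.Y194.VN
open Pool.Agent.TH107.AT

namespace RESx

variable {Γ : Type} [Group Γ] (P : Subgroup Γ)

/-- the inclusion of the group rings -/
noncomputable def io : MonoidAlgebra ℤ P →+* MonoidAlgebra ℤ Γ :=
  MonoidAlgebra.mapDomainRingHom ℤ P.subtype

lemma io_coeff (x : MonoidAlgebra ℤ P) (h : P) : (io P x).coeff (h : Γ) = x.coeff h := by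
  have e : (io P x).coeff = Finsupp.mapDomain (fun a : P => (a : Γ)) x.coeff := rfl
  rw [e]
  exact Finsupp.mapDomain_apply Subtype.val_injective x.coeff h

lemma io_coeff_not (x : MonoidAlgebra ℤ P) (g : Γ) (hg : g ∉ P) : (io P x).coeff g = 0 := by
  have e : (io P x).coeff = Finsupp.mapDomain (fun a : P => (a : Γ)) x.coeff := rfl
  rw [e]
  apply Finsupp.mapDomain_of_notMem_range
  rintro ⟨a, rfl⟩
  exact hg a.2

lemma io_of (h : P) : io P (MonoidAlgebra.of ℤ P h) = MonoidAlgebra.of ℤ Γ (h : Γ) := by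
  unfold io
  simp

/-- an element of the big group ring from its components -/
noncomputable def S [Fintype (Γ ⧸ P)] (x : Γ ⧸ P → MonoidAlgebra ℤ P) : MonoidAlgebra ℤ Γ :=
  ∑ q, io P (x q) * MonoidAlgebra.single (rp P q) 1

lemma S_coeff [Fintype (Γ ⧸ P)] (x : Γ ⧸ P → MonoidAlgebra ℤ P) (q : Γ ⧸ P) (h : P) :
    (S P x).coeff ((h : Γ) * rp P q) = (x q).coeff h := by
  classical
  unfold S
  rw [MonoidAlgebra.coeff_sum, Finsupp.finsetSum_apply, Finset.sum_eq_single q]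
  · rw [MonoidAlgebra.coeff_mul_single_apply, mul_inv_cancel_right, mul_one, io_coeff]
  · intro q' _ hq'
    rw [MonoidAlgebra.coeff_mul_single_apply, mul_one]
    apply io_coeff_not
    intro hmem
    apply hq'
    have := (rp_bij P).1 (a₁ := (q, h)) (a₂ := (q', ⟨_, hmem⟩)) (by
      change (h : Γ) * rp P q = (h : Γ) * rp P q * (rp P q')⁻¹ * rp P q'
      group)
    exact (Prod.mk.inj this).1.symm
  · intro hq
    exact absurd (Finset.mem_univ q) hq

lemma ext_rp {x y : MonoidAlgebra ℤ Γ}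
    (h : ∀ (q : Γ ⧸ P) (a : P), x.coeff ((a : Γ) * rp P q) = y.coeff ((a : Γ) * rp P q)) :
    x = y := by
  apply MonoidAlgebra.coeff_injective
  ext g
  obtain ⟨⟨q, a⟩, hg⟩ := (rp_bij P).2 g
  have hg' : (a : Γ) * rp P q = g := hg
  rw [← hg']
  exact h q a

lemma S_add [Fintype (Γ ⧸ P)] (x y : Γ ⧸ P → MonoidAlgebra ℤ P) :
    S P (fun q => x q + y q) = S P x + S P y := by
  unfold S
  rw [← Finset.sum_add_distrib]
  exact Finset.sum_congr rfl fun q _ => by rw [map_add, add_mul]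

/-- the components of an element -/
noncomputable def C (x : MonoidAlgebra ℤ Γ) (q : Γ ⧸ P) : MonoidAlgebra ℤ P :=
  MonoidAlgebra.ofCoeff (x.coeff.comapDomain (fun a : P => (a : Γ) * rp P q)
    (fun _ _ _ _ h => Subtype.val_injective (mul_right_cancel h)))

lemma S_C [Fintype (Γ ⧸ P)] (x : MonoidAlgebra ℤ Γ) : S P (C P x) = x := by
  apply ext_rp P
  intro q a
  rw [S_coeff]
  rfl

/-- `Phi` -/
noncomputable def Phi [Fintype (Γ ⧸ P)] (κ : Type) :
    (κ × (Γ ⧸ P) → MonoidAlgebra ℤ P) →+ (κ → MonoidAlgebra ℤ Γ) where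
  toFun w i := S P (fun q => w (i, q))
  map_zero' := by
    funext i
    apply ext_rp P
    intro q a
    rw [S_coeff]
    rfl
  map_add' w w' := by
    funext i
    exact S_add P _ _

lemma Phi_inj [Fintype (Γ ⧸ P)] (κ : Type) : Function.Injective (Phi P κ) := by
  intro w w' h
  funext p
  obtain ⟨i, q⟩ := p
  apply MonoidAlgebra.coeff_injective
  ext a
  have h1 := congrArg (fun f => (f i).coeff ((a : Γ) * rp P q)) h
  have h2 : (S P (fun q => w (i, q))).coeff ((a : Γ) * rp P q) =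
    (S P (fun q => w' (i, q))).coeff ((a : Γ) * rp P q) := h1
  rwa [S_coeff, S_coeff] at h2

lemma Phi_surj [Fintype (Γ ⧸ P)] (κ : Type) : Function.Surjective (Phi P κ) := by
  intro v
  refine ⟨fun p => C P (v p.1) p.2, ?_⟩
  funext i
  exact S_C P (v i)

lemma Phi_smul [Fintype (Γ ⧸ P)] (κ : Type) (h : P) (w : κ × (Γ ⧸ P) → MonoidAlgebra ℤ P) :
    Phi P κ (MonoidAlgebra.of ℤ P h • w) = MonoidAlgebra.of ℤ Γ (h : Γ) • Phi P κ w := by
  funext i
  change S P (fun q => MonoidAlgebra.of ℤ P h * w (i, q)) =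
    MonoidAlgebra.of ℤ Γ (h : Γ) * S P (fun q => w (i, q))
  unfold S
  rw [Finset.mul_sum]
  refine Finset.sum_congr rfl fun q _ => ?_
  rw [map_mul, io_of, mul_assoc]

lemma key [Fintype (Γ ⧸ P)] {s t : ℕ} (D : Matrix (Fin t) (Fin s) (MonoidAlgebra ℤ Γ))
    (k : Fin t) (q : Γ ⧸ P) (i : Fin s) :
    S P (fun q' => resZ P D (k, q) (i, q')) = MonoidAlgebra.single (rp P q) 1 * D k i := by
  apply ext_rp P
  intro q' a
  rw [S_coeff, MonoidAlgebra.coeff_single_mul_apply, one_mul, ← mul_assoc]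
  rfl

lemma Phi_mul [Fintype (Γ ⧸ P)] {s t : ℕ} (D : Matrix (Fin t) (Fin s) (MonoidAlgebra ℤ Γ))
    (w : Fin t × (Γ ⧸ P) → MonoidAlgebra ℤ P) :
    Phi P (Fin s) (w ᵥ* Matrix.of (resZ P D)) = Phi P (Fin t) w ᵥ* D := by
  funext i
  change ∑ q', io P (∑ p, w p * resZ P D p (i, q')) * MonoidAlgebra.single (rp P q') 1 =
    ∑ k, (∑ q, io P (w (k, q)) * MonoidAlgebra.single (rp P q) 1) * D k i
  have h1 : ∀ q', io P (∑ p, w p * resZ P D p (i, q')) * MonoidAlgebra.single (rp P q') 1 =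
      ∑ p : Fin t × (Γ ⧸ P), io P (w p) *
        (io P (resZ P D p (i, q')) * MonoidAlgebra.single (rp P q') 1) := by
    intro q'
    rw [map_sum, Finset.sum_mul]
    exact Finset.sum_congr rfl fun p _ => by rw [map_mul, mul_assoc]
  rw [Finset.sum_congr rfl fun q' _ => h1 q', Finset.sum_comm, Fintype.sum_prod_type]
  refine Finset.sum_congr rfl fun k _ => ?_
  rw [Finset.sum_mul]
  refine Finset.sum_congr rfl fun q _ => ?_
  rw [← Finset.mul_sum, mul_assoc, ← key P D k q i]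
  rfl

end RESx

open RESx in
theorem res : RES := by
  intro Γ _ P _ c₂ c₁ c₀ D₁ D₀ ε h
  refine ⟨ε.comp (Phi P (Fin c₀)), ?_, ?_, ?_, ?_⟩
  · intro z
    obtain ⟨v, hv⟩ := h.surj z
    obtain ⟨w, hw⟩ := Phi_surj P (Fin c₀) v
    exact ⟨w, by rw [AddMonoidHom.comp_apply, hw, hv]⟩
  · intro g v
    rw [AddMonoidHom.comp_apply, AddMonoidHom.comp_apply, Phi_smul, h.equi]
  · intro v
    rw [AddMonoidHom.comp_apply, h.ex0]
    constructor
    · rintro ⟨u, hu⟩
      obtain ⟨w, hw⟩ := Phi_surj P (Fin c₁) u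
      refine ⟨w, Phi_inj P (Fin c₀) ?_⟩
      rw [Phi_mul, hw, hu]
    · rintro ⟨u, hu⟩
      exact ⟨Phi P (Fin c₁) u, by rw [← Phi_mul, hu]⟩
  · intro v
    have e : v ᵥ* Matrix.of (resZ P D₀) = 0 ↔ Phi P (Fin c₁) v ᵥ* D₀ = 0 := by
      rw [← Phi_mul]
      constructor
      · intro h0
        rw [h0, map_zero]
      · intro h0
        exact Phi_inj P (Fin c₀) (by rw [h0, map_zero])
    rw [e, h.ex1]
    constructor
    · rintro ⟨u, hu⟩
      obtain ⟨w, hw⟩ := Phi_surj P (Fin c₂) u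
      refine ⟨w, Phi_inj P (Fin c₁) ?_⟩
      rw [Phi_mul, hw, hu]
    · rintro ⟨u, hu⟩
      exact ⟨Phi P (Fin c₂) u, by rw [← Phi_mul, hu]⟩

end Pool.Agent.H320.LB
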