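import Pool.Agent.H320.LB.StmA
import Pool.Graph.R_pool_sql_team_seeded_1acbe0a2.Y194.VN.Harm

/-!
helper320: the rank bound for the first `ℓ²`-Betti number; statements.
-/

set_option autoImplicit false

open Finset Matrix

namespace Pool.Agent.H320.LB

open Pool.Agent.H80R2
open Pool.Agent.H80R2.BC (L2 GMat vdim IsTr LInv Equi act kerA)
open Pool.Agent.H812R3
open Pool.Agent.W656.VA
open Pool.Agent.Y194.VN

/-- a relation over the group ring bounds the dimension of a kernel -/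
def RB0 : Prop := ∀ (Γ : Type) [Group Γ] (m s r : ℕ) (a : ℤ), a ≠ 0 →
  ∀ (D : Matrix (Fin s) (Fin r) (MonoidAlgebra ℤ Γ)) (Y : Matrix (Fin m) (Fin r) (MonoidAlgebra ℤ Γ))
    (R : Matrix (Fin r) (Fin m) (MonoidAlgebra ℤ Γ)) (T : Matrix (Fin r) (Fin s) (MonoidAlgebra ℤ Γ)),
    R * Y + T * D = a • (1 : Matrix (Fin r) (Fin r) (MonoidAlgebra ℤ Γ)) →
    vdim (kerA (cf D)) ≤ m

/-- restriction of a resolution to a subgroup of finite index -/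
def RES : Prop := ∀ (Γ : Type) [Group Γ] (P : Subgroup Γ) [Fintype (Γ ⧸ P)] (c₂ c₁ c₀ : ℕ)
  (D₁ : Matrix (Fin c₂) (Fin c₁) (MonoidAlgebra ℤ Γ))
  (D₀ : Matrix (Fin c₁) (Fin c₀) (MonoidAlgebra ℤ Γ)) (ε : (Fin c₀ → MonoidAlgebra ℤ Γ) →+ ℤ),
  Res Γ D₁ D₀ ε → ∃ ε' : (Fin c₀ × (Γ ⧸ P) → MonoidAlgebra ℤ P) →+ ℤ,
    Res P (Matrix.of (resZ P D₁)) (Matrix.of (resZ P D₀)) ε'

/-- the rank bound -/
def RB : Prop := ∀ (Γ : Type) [Group Γ] (P : Subgroup Γ), P.index ≠ 0 → ∀ (c₂ c₁ c₀ : ℕ)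
  (D₁ : Matrix (Fin c₂) (Fin c₁) (MonoidAlgebra ℤ Γ))
  (D₀ : Matrix (Fin c₁) (Fin c₀) (MonoidAlgebra ℤ Γ)) (ε : (Fin c₀ → MonoidAlgebra ℤ Γ) →+ ℤ),
  Res Γ D₁ D₀ ε → ∀ (e : ℕ) (g : Fin e → P), Subgroup.closure (Set.range g) = ⊤ →
  (P.index : ℝ) * vdim (kerA (cf D₁)) ≤ e + P.index * c₀ - 1

end Pool.Agent.H320.LB
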