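import Mathlib

/-!
helper320: the rank bound for the first `ℓ²`-Betti number; statement of the algebraic part.
-/

set_option autoImplicit false

open Finset Matrix

namespace Pool.Agent.H320.LB

/-- the beginning of a free resolution of `ℤ`: `ι₂`, `ι₁`, `ι₀` are bases in the degrees `2`, `1`,
`0`, the modules consist of row vectors, `D₁` and `D₀` are the boundary operators and `ε` the
augmentation -/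
structure Res (Γ : Type) [Group Γ] {ι₂ ι₁ ι₀ : Type} [Fintype ι₂] [Fintype ι₁] [Fintype ι₀]
    (D₁ : Matrix ι₂ ι₁ (MonoidAlgebra ℤ Γ)) (D₀ : Matrix ι₁ ι₀ (MonoidAlgebra ℤ Γ))
    (ε : (ι₀ → MonoidAlgebra ℤ Γ) →+ ℤ) : Prop where
  surj : Function.Surjective ε
  equi : ∀ (g : Γ) (v : ι₀ → MonoidAlgebra ℤ Γ), ε (MonoidAlgebra.of ℤ Γ g • v) = ε v
  ex0 : ∀ v, ε v = 0 ↔ ∃ u, u ᵥ* D₀ = v
  ex1 : ∀ v, v ᵥ* D₀ = 0 ↔ ∃ u, u ᵥ* D₁ = v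

/-- the algebraic part of the rank bound: `e` generators -/
def ALG : Prop := ∀ (Γ : Type) [Group Γ] (ι₂ ι₁ ι₀ : Type) [Fintype ι₂] [Fintype ι₁] [Fintype ι₀]
  [DecidableEq ι₂] [DecidableEq ι₁] [DecidableEq ι₀] (D₁ : Matrix ι₂ ι₁ (MonoidAlgebra ℤ Γ))
  (D₀ : Matrix ι₁ ι₀ (MonoidAlgebra ℤ Γ)) (ε : (ι₀ → MonoidAlgebra ℤ Γ) →+ ℤ), Res Γ D₁ D₀ ε →
  ∀ (e : ℕ) (g : Fin e → Γ), Subgroup.closure (Set.range g) = ⊤ →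
  ∃ (a : ℤ) (i₀ : ι₀) (Y : Matrix (Fin e ⊕ {i : ι₀ // i ≠ i₀}) ι₁ (MonoidAlgebra ℤ Γ))
    (R : Matrix ι₁ (Fin e ⊕ {i : ι₀ // i ≠ i₀}) (MonoidAlgebra ℤ Γ))
    (T : Matrix ι₁ ι₂ (MonoidAlgebra ℤ Γ)), a ≠ 0 ∧
    R * Y + T * D₁ = a • (1 : Matrix ι₁ ι₁ (MonoidAlgebra ℤ Γ))

end Pool.Agent.H320.LB
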