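import Pool.Agent.H320.LB.Stm
import Pool.Graph.R_seed8.R655.LI.Asph

/-!
helper320: statements for 2-complexes.
-/

set_option autoImplicit false

open Finset Matrix

namespace Pool.Agent.H320.LB

open Pool.Agent.H80R2
open Pool.Agent.H80R2.BC (L2 GMat vdim IsTr LInv Equi act kerA)
open Pool.Agent.H812R3
open Pool.Agent.W656.VA
open Pool.Agent.Y194.VN
open Pool.Agent.R655.LI (fox)

/-- a matrix is injective on row vectors if there are no harmonic cochains in the top degree -/
def INJ : Prop := ∀ (Γ : Type) [Group Γ] (r g : ℕ) (D : Matrix (Fin r) (Fin g) (MonoidAlgebra ℤ Γ)),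
  harm D (0 : Matrix (Fin 0) (Fin r) (MonoidAlgebra ℤ Γ)) = ⊥ →
  ∀ u : Fin r → MonoidAlgebra ℤ Γ, u ᵥ* D = 0 → u = 0

/-- the cellular chain complex of the universal covering of a 2-complex with one vertex is exact in
the degrees one and zero -/
def EXF : Prop := ∀ (K : Pool.Agent.R655.LI.Cx) [Fintype K.V] [Fintype K.R],
  ∃ ε : (Unit → MonoidAlgebra ℤ K.Pi) →+ ℤ,
    Res K.Pi (Matrix.of fun j v => fox K (K.r j) v)
      (Matrix.of fun (v : K.V) (_ : Unit) =>
        MonoidAlgebra.of ℤ K.Pi (PresentedGroup.of v) - 1) ε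

end Pool.Agent.H320.LB
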