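import Pool.Graph.R_seed8.R655.LI.Howie

/-!
helper320: statements for 2-complexes and division rings.
-/

set_option autoImplicit false

open Finset Matrix

namespace Pool.Agent.H320.LB

open Pool.Agent.R655.LI (fox Sub)

/-- derivations of a group with values in a ring -/
def IsDer {G D : Type} [Group G] [Ring D] (φ : MonoidAlgebra ℤ G →+* D) (δ : G → D) : Prop :=
  ∀ g h : G, δ (g * h) = δ g + φ (MonoidAlgebra.of ℤ G g) * δ h

/-- linear algebra over a division ring -/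
def WLIN : Prop := ∀ (D : Type) [DivisionRing D] (V R : Type) [Fintype V] [Fintype R]
  (M : Matrix R V D) (n : ℕ), Fintype.card V = n + Fintype.card R →
  (∃ u : R → D, u ≠ 0 ∧ u ᵥ* M = 0) →
  ∀ F : {d : V → D // M *ᵥ d = 0} → (Fin (n + 1) → D),
    (∀ x y z : {d : V → D // M *ᵥ d = 0}, z.1 = x.1 + y.1 → F z = F x + F y) →
    (∀ (c : D) (x y : {d : V → D // M *ᵥ d = 0}), (∀ v, y.1 v = x.1 v * c) →
      ∀ i, F y i = F x i * c) →
    Function.Injective F → Function.Surjective F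

/-- derivations with given values at the generators -/
def WDER : Prop := ∀ (K : Pool.Agent.R655.LI.Cx) [Fintype K.V] (D : Type) [Ring D]
  (φ : MonoidAlgebra ℤ K.Pi →+* D) (d : K.V → D),
  (∀ j, ∑ v, φ (fox K (K.r j) v) * d v = 0) →
  ∃ δ : K.Pi → D, IsDer φ δ ∧ ∀ v, δ (PresentedGroup.of v) = d v

/-- homomorphisms to the rational numbers from special derivations -/
def WHOM : Prop := ∀ (G D : Type) [Group G] [Ring D] (φ : MonoidAlgebra ℤ G →+* D),
  Function.Injective φ → ∀ (ι : Type) (T : ι → Subgroup G), (⨆ i, T i) = ⊤ → ∀ (i : ι) (δ : G → D),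
  IsDer φ δ → (∀ t ∈ T i, δ t = φ (MonoidAlgebra.of ℤ G t) - 1) →
  (∀ j, j ≠ i → ∀ t ∈ T j, δ t = 0) → ∀ f : G →* Multiplicative ℚ,
  ∃ h : G →* Multiplicative ℚ, (∀ t ∈ T i, h t = f t) ∧ ∀ j, j ≠ i → ∀ t ∈ T j, h t = 1

/-- the rank of the abelianization -/
def WCNT : Prop := ∀ (K L : Pool.Agent.R655.LI.Cx) (_ : Sub K L), L.Contractible →
  ∀ [Fintype K.V] [Fintype K.R] (n : ℕ), Fintype.card K.V = n + Fintype.card K.R →
  ∀ h : Fin (n + 1) → (K.Pi →* Multiplicative ℚ), ∃ c : Fin (n + 1) → ℚ, c ≠ 0 ∧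
    ∀ g : K.Pi, ∑ i, c i * (h i g).toAdd = 0

end Pool.Agent.H320.LB
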