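import Pool.Agent.H320.LB.WFin

/-!
helper320: subgroups on which all derivations are inner.
-/

set_option autoImplicit false

namespace Pool.Agent.H320.LB

/-- nontrivial cyclic subgroups, joins of subgroups which intersect one of them, and extensions by
elements `s` such that the subgroup intersects its conjugate by `s` -/
inductive TT {G : Type} [Group G] : Subgroup G → Prop
  | cyc (t : G) (ht : t ≠ 1) : TT (Subgroup.zpowers t)
  | join (ι : Type) (T : ι → Subgroup G) (i₀ : ι) (hT : ∀ i, TT (T i))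
      (h : ∀ i, ∃ t ∈ T i₀ ⊓ T i, t ≠ 1) : TT (⨆ i, T i)
  | qnormal (T : Subgroup G) (S : Set G) (hT : TT T)
      (h : ∀ s ∈ S, ∃ z ∈ T, z ≠ 1 ∧ s * z * s⁻¹ ∈ T) : TT (T ⊔ Subgroup.closure S)

variable {G D : Type} [Group G] [DivisionRing D] {φ : MonoidAlgebra ℤ G →+* D}

/-- the derivation rule on a subgroup -/
def LDer (φ : MonoidAlgebra ℤ G →+* D) (T : Subgroup G) (δ : G → D) : Prop :=
  ∀ s ∈ T, ∀ t ∈ T, δ (s * t) = δ s + φ (MonoidAlgebra.of ℤ G s) * δ t

/-- the subgroup where the derivation is the inner derivation of `a` -/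
def zsub {T : Subgroup G} {δ : G → D} (h : LDer φ T δ) (a : D) : Subgroup G where
  carrier := {g | g ∈ T ∧ δ g = (φ (MonoidAlgebra.of ℤ G g) - 1) * a}
  one_mem' := by
    refine ⟨T.one_mem, ?_⟩
    have h1 := h 1 T.one_mem 1 T.one_mem
    rw [mul_one, map_one, map_one, one_mul] at h1
    rw [map_one, map_one, sub_self, zero_mul]
    exact left_eq_add.1 h1
  mul_mem' {s t} hs ht := by
    refine ⟨T.mul_mem hs.1 ht.1, ?_⟩
    rw [h s hs.1 t ht.1, hs.2, ht.2, map_mul, map_mul]
    noncomm_ring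
  inv_mem' {s} hs := by
    refine ⟨T.inv_mem hs.1, ?_⟩
    have h1 := h s⁻¹ (T.inv_mem hs.1) s hs.1
    have h0 := h 1 T.one_mem 1 T.one_mem
    rw [mul_one, map_one, map_one, one_mul] at h0
    have h00 : δ 1 = 0 := left_eq_add.1 h0
    rw [inv_mul_cancel, h00, hs.2] at h1
    have h2 : φ (MonoidAlgebra.of ℤ G s⁻¹) * φ (MonoidAlgebra.of ℤ G s) = 1 := by
      rw [← map_mul, ← map_mul, inv_mul_cancel, map_one, map_one]
    have h3 : δ s⁻¹ = -(φ (MonoidAlgebra.of ℤ G s⁻¹) * ((φ (MonoidAlgebra.of ℤ G s) - 1) * a)) :=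
      eq_neg_of_add_eq_zero_left h1.symm
    rw [h3, ← mul_assoc, mul_sub, h2, mul_one, ← neg_mul, neg_sub]

theorem ne_zero_of (hφ : Function.Injective φ) {t : G} (ht : t ≠ 1) :
    φ (MonoidAlgebra.of ℤ G t) - 1 ≠ 0 := by
  intro h
  rw [sub_eq_zero, ← map_one φ] at h
  have h2 := hφ h
  rw [← map_one (MonoidAlgebra.of ℤ G)] at h2
  exact ht (MonoidAlgebra.of_injective h2)

theorem TT.inner (hφ : Function.Injective φ) {T : Subgroup G} (hT : TT T) : Inner φ T := by
  induction hT with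
  | cyc t ht =>
    refine ⟨fun h => ht ?_, fun δ hδ => ?_⟩
    · rwa [Subgroup.zpowers_eq_bot] at h
    · have h0 := ne_zero_of hφ ht
      refine ⟨(φ (MonoidAlgebra.of ℤ G t) - 1)⁻¹ * δ t, fun s hs => ?_⟩
      have hd : LDer φ (Subgroup.zpowers t) δ := hδ
      have h1 : Subgroup.zpowers t ≤ zsub hd ((φ (MonoidAlgebra.of ℤ G t) - 1)⁻¹ * δ t) := by
        rw [Subgroup.zpowers_le]
        refine ⟨Subgroup.mem_zpowers t, ?_⟩
        rw [← mul_assoc, mul_inv_cancel₀ h0, one_mul]
      exact (h1 hs).2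
  | join ι T i₀ hT h ih =>
    refine ⟨fun hb => ?_, fun δ hδ => ?_⟩
    · obtain ⟨t, ht, ht1⟩ := h i₀
      apply ht1
      have : t ∈ ⨆ i, T i := (le_iSup T i₀) ht.1
      rw [hb] at this
      exact this
    · have hi : ∀ i, ∃ a : D, ∀ t ∈ T i, δ t = (φ (MonoidAlgebra.of ℤ G t) - 1) * a := fun i =>
        (ih i).2 δ fun s hs t ht => hδ s ((le_iSup T i) hs) t ((le_iSup T i) ht)
      choose a ha using hi
      have heq : ∀ i, a i = a i₀ := by
        intro i
        obtain ⟨t, ht, ht1⟩ := h i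
        exact mul_left_cancel₀ (ne_zero_of hφ ht1) ((ha i t ht.2).symm.trans (ha i₀ t ht.1))
      have hd : LDer φ (⨆ i, T i) δ := hδ
      have h1 : (⨆ i, T i) ≤ zsub hd (a i₀) := iSup_le fun i t ht =>
        ⟨(le_iSup T i) ht, by rw [ha i t ht, heq i]⟩
      exact ⟨a i₀, fun t ht => (h1 ht).2⟩
  | qnormal T S hT h ih =>
    refine ⟨fun hb => ih.1 ?_, fun δ hδ => ?_⟩
    · exact eq_bot_iff.2 (le_sup_left.trans hb.le)
    · have hTle : T ≤ T ⊔ Subgroup.closure S := le_sup_left
      have hSle : ∀ s ∈ S, s ∈ T ⊔ Subgroup.closure S := fun s hs =>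
        (le_sup_right : Subgroup.closure S ≤ _) (Subgroup.subset_closure hs)
      obtain ⟨a, ha⟩ := ih.2 δ fun s hs t ht => hδ s (hTle hs) t (hTle ht)
      have hd : LDer φ (T ⊔ Subgroup.closure S) δ := hδ
      have h1 : T ⊔ Subgroup.closure S ≤ zsub hd a := by
        refine sup_le (fun t ht => ⟨hTle ht, ha t ht⟩) ?_
        rw [Subgroup.closure_le]
        intro s hs
        refine ⟨hSle s hs, ?_⟩
        obtain ⟨z, hz, hz1, hy⟩ := h s hs
        set y := s * z * s⁻¹ with hyd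
        have hy1 : y ≠ 1 := by
          intro h0
          apply hz1
          have : s * z = s := by
            rw [hyd, mul_inv_eq_one] at h0
            exact h0
          exact mul_eq_left.1 this
        have hsz : s * z = y * s := by rw [hyd, inv_mul_cancel_right]
        have e1 := hδ s (hSle s hs) z (hTle hz)
        have e2 := hδ y (hTle hy) s (hSle s hs)
        rw [hsz, e2, ha y hy, ha z hz] at e1
        have e3 : φ (MonoidAlgebra.of ℤ G s) * φ (MonoidAlgebra.of ℤ G z) =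
            φ (MonoidAlgebra.of ℤ G y) * φ (MonoidAlgebra.of ℤ G s) := by
          rw [← map_mul, ← map_mul, ← map_mul, ← map_mul, hsz]
        have e4 : (φ (MonoidAlgebra.of ℤ G y) - 1) *
            (δ s - (φ (MonoidAlgebra.of ℤ G s) - 1) * a) = 0 := by
          have e5 : (φ (MonoidAlgebra.of ℤ G y) - 1) *
              (δ s - (φ (MonoidAlgebra.of ℤ G s) - 1) * a) =
              ((φ (MonoidAlgebra.of ℤ G y) - 1) * a + φ (MonoidAlgebra.of ℤ G y) * δ s) -
              (δ s + φ (MonoidAlgebra.of ℤ G s) * ((φ (MonoidAlgebra.of ℤ G z) - 1) * a)) +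
              (φ (MonoidAlgebra.of ℤ G s) * φ (MonoidAlgebra.of ℤ G z) -
                φ (MonoidAlgebra.of ℤ G y) * φ (MonoidAlgebra.of ℤ G s)) * a := by
            noncomm_ring
          rw [e5, e1, e3, sub_self, sub_self, zero_mul, add_zero]
        exact sub_eq_zero.1 ((mul_eq_zero.1 e4).resolve_left (ne_zero_of hφ hy1))
      exact ⟨a, fun t ht => (h1 ht).2⟩

end Pool.Agent.H320.LB
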