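import Pool.Agent.H320.LB.Base
import Pool.Agent.H320.LB.RBB
import Pool.Agent.H320.LB.ALG
import Pool.Agent.H320.LB.RB0
import Pool.Agent.H320.LB.RES
import Pool.Agent.H320.LB.INJ
import Pool.Agent.H320.LB.EXF

/-!
helper320: 2-complexes with linear fundamental groups.
-/

set_option autoImplicit false

open Finset Matrix

namespace Pool.Agent.H320.LB

open Pool.Agent.H80R2
open Pool.Agent.H80R2.BC (L2 GMat vdim IsTr LInv Equi act kerA)
open Pool.Agent.H812R3
open Pool.Agent.W656.VA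
open Pool.Agent.Y194.VN
open Pool.Agent.R655.LI (fox Asph)

theorem rbT : RB := rb rb0 alg res

theorem Res.reindex {Γ : Type} [Group Γ] {ι₂ ι₁ ι₀ κ₂ κ₁ κ₀ : Type} [Fintype ι₂] [Fintype ι₁]
    [Fintype ι₀] [Fintype κ₂] [Fintype κ₁] [Fintype κ₀]
    {D₁ : Matrix ι₂ ι₁ (MonoidAlgebra ℤ Γ)} {D₀ : Matrix ι₁ ι₀ (MonoidAlgebra ℤ Γ)}
    {ε : (ι₀ → MonoidAlgebra ℤ Γ) →+ ℤ} (h : Res Γ D₁ D₀ ε) (e₂ : κ₂ ≃ ι₂) (e₁ : κ₁ ≃ ι₁)
    (e₀ : κ₀ ≃ ι₀) : ∃ ε' : (κ₀ → MonoidAlgebra ℤ Γ) →+ ℤ,
      Res Γ (D₁.submatrix e₂ e₁) (D₀.submatrix e₁ e₀) ε' := by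
  have hv : ∀ {α β κ lam : Type} [Fintype α] [Fintype κ] (D : Matrix α β (MonoidAlgebra ℤ Γ))
      (e : κ ≃ α) (f : lam ≃ β) (u : κ → MonoidAlgebra ℤ Γ),
      u ᵥ* D.submatrix e f = (fun k => ((fun a => u (e.symm a)) ᵥ* D) (f k)) := by
    intro α β κ lam _ _ D e f u
    funext k
    change ∑ a, u a * D (e a) (f k) = ∑ a, u (e.symm a) * D a (f k)
    rw [← e.sum_comp]
    simp
  refine ⟨{ toFun := fun v => ε fun i => v (e₀.symm i)
            map_zero' := map_zero ε
            map_add' := fun v w => map_add ε (fun i => v (e₀.symm i)) (fun i => w (e₀.symm i)) },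
    ⟨fun z => ?_, fun g v => h.equi g fun i => v (e₀.symm i), fun v => ?_, fun v => ?_⟩⟩
  · obtain ⟨v, hv'⟩ := h.surj z
    refine ⟨fun k => v (e₀ k), ?_⟩
    change ε (fun i => v (e₀ (e₀.symm i))) = z
    simpa using hv'
  · change ε (fun i => v (e₀.symm i)) = 0 ↔ _
    rw [h.ex0]
    constructor
    · rintro ⟨u, hu⟩
      refine ⟨fun k => u (e₁ k), ?_⟩
      rw [hv]
      funext k
      have h1 := congrFun hu (e₀ k)
      simpa using h1
    · rintro ⟨u, hu⟩
      rw [hv] at hu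
      refine ⟨fun a => u (e₁.symm a), ?_⟩
      funext i
      have h1 := congrFun hu (e₀.symm i)
      simpa using h1
  · have h1 : v ᵥ* D₀.submatrix e₁ e₀ = 0 ↔ (fun a => v (e₁.symm a)) ᵥ* D₀ = 0 := by
      rw [hv]
      constructor
      · intro h2
        funext i
        have h3 := congrFun h2 (e₀.symm i)
        simpa using h3
      · intro h2
        funext k
        exact congrFun h2 (e₀ k)
    rw [h1, h.ex1]
    constructor
    · rintro ⟨u, hu⟩
      refine ⟨fun k => u (e₂ k), ?_⟩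
      rw [hv]
      funext k
      have h2 := congrFun hu (e₁ k)
      simpa using h2
    · rintro ⟨u, hu⟩
      rw [hv] at hu
      refine ⟨fun a => u (e₂.symm a), ?_⟩
      funext i
      have h2 := congrFun hu (e₁.symm i)
      simpa using h2

/-- asphericity of 2-complexes with quantized dimensions -/
theorem asph_quant (K : Pool.Agent.R655.LI.Cx) [Fintype K.V] [Fintype K.R] {d : ℕ}
    (hQ : Quant K.Pi d) (P : Subgroup K.Pi) (hP : P.index ≠ 0) (e : ℕ) (g : Fin e → P)
    (hg : Subgroup.closure (Set.range g) = ⊤)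
    (hlt : d * (P.index * Fintype.card K.R + e + P.index) <
      P.index + d * (P.index * Fintype.card K.V + 1)) : Asph K := by
  classical
  obtain ⟨ε, hR⟩ := exf K
  let e₂ : Fin (Fintype.card K.R) ≃ K.R := (Fintype.equivFin _).symm
  let e₁ : Fin (Fintype.card K.V) ≃ K.V := (Fintype.equivFin _).symm
  let e₀ : Fin 1 ≃ Unit := Equiv.ofUnique _ _
  obtain ⟨ε', hR'⟩ := hR.reindex e₂ e₁ e₀
  set D₁ := (Matrix.of fun j v => fox K (K.r j) v).submatrix e₂ e₁ with hD₁
  have h1 := rbT K.Pi P hP _ _ _ D₁ _ ε' hR' e g hg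
  let Z : Matrix (Fin 0) (Fin (Fintype.card K.R)) (MonoidAlgebra ℤ K.Pi) := 0
  have h2 := vdim_harm (A := D₁) (B := Z) (Matrix.zero_mul _)
  have h3 : vdim (kerA (cf Z)) ≤ Fintype.card K.R := by
    have := vdim_le_card (kerA (cf Z))
    rwa [Fintype.card_fin] at this
  obtain ⟨z1, hz1⟩ := hQ.ker D₁
  obtain ⟨z2, hz2⟩ := hQ.ker Z
  have hk : (0 : ℝ) < P.index := by exact_mod_cast Nat.pos_of_ne_zero hP
  have hd : (0 : ℝ) < d := by exact_mod_cast hQ.1
  have hlt' : (d : ℝ) * (P.index * Fintype.card K.R + e + P.index) <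
      P.index + d * (P.index * Fintype.card K.V + 1) := by exact_mod_cast hlt
  have h4 : (d : ℝ) * vdim (harm D₁ Z) < 1 := by
    have h5 : (P.index : ℝ) * (d * vdim (harm D₁ Z)) < P.index * 1 := by
      have h6 : (P.index : ℝ) * vdim (harm D₁ Z) ≤
          P.index * Fintype.card K.R + (e + P.index * (1 : ℕ) - 1) -
            P.index * Fintype.card K.V := by
        rw [h2]
        nlinarith
      have h7 : (P.index : ℝ) * (d * vdim (harm D₁ Z)) ≤
          d * (P.index * Fintype.card K.R + (e + P.index * (1 : ℕ) - 1) -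
            P.index * Fintype.card K.V) := by
        calc _ = d * (P.index * vdim (harm D₁ Z)) := by ring
          _ ≤ _ := mul_le_mul_of_nonneg_left h6 hd.le
      push_cast at h7
      nlinarith
    exact lt_of_mul_lt_mul_left h5 hk.le
  have h5 : harm D₁ Z = ⊥ := by
    apply eq_bot_of_vdim (closed_harm _ _) (linv_harm _ _)
    have h6 : (d : ℝ) * vdim (harm D₁ Z) = ((z2 + z1 - d * Fintype.card K.V : ℤ) : ℝ) := by
      rw [h2]
      push_cast
      linarith
    rw [h6] at h4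
    have h7 : z2 + z1 - (d : ℤ) * Fintype.card K.V ≤ 0 := by
      have : z2 + z1 - (d : ℤ) * Fintype.card K.V < 1 := by exact_mod_cast h4
      omega
    have h8 : ((z2 + z1 - d * Fintype.card K.V : ℤ) : ℝ) ≤ 0 := by exact_mod_cast h7
    rw [← h6] at h8
    by_contra hc
    push Not at hc
    exact absurd h8 (not_le.2 (mul_pos hd hc))
  have h6 := inj K.Pi _ _ D₁ h5
  unfold Asph
  rw [injective_iff_map_eq_zero]
  intro c hc
  have h7 : (fun k => c (e₂ k)) ᵥ* D₁ = 0 := by
    funext v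
    change ∑ k, c (e₂ k) * fox K (K.r (e₂ k)) (e₁ v) = 0
    rw [e₂.sum_comp (fun j => c j * fox K (K.r j) (e₁ v))]
    have h8 := congrFun hc (e₁ v)
    rw [Finsupp.linearCombination_apply,
      Finsupp.sum_fintype c (fun i a => a • fox K (K.r i)) (fun _ => zero_smul _ _),
      Finset.sum_apply] at h8
    exact h8
  ext1 j
  have h8 := congrFun (h6 _ h7) (e₂.symm j)
  simpa using h8

end Pool.Agent.H320.LB
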