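import Pool.Agent.H320.LB.StmW

/-!
helper441 for helper320: the rank of the abelianization of a subcomplex of a contractible complex.
-/

set_option autoImplicit false

open Finset Matrix

namespace Pool.Agent.H320.LB

open Pool.Agent.R655.LI (fox Sub)

namespace WCNTx

open Pool.Agent.R655.LI (Cx clk expSum expSum_of clk_sub clk_sub' clk_indep)

lemma clk_one (K : Cx) : clk ℚ K 1 = 0 := by
  funext v
  simp [clk]

lemma clk_mul (K : Cx) (x y : FreeGroup K.V) : clk ℚ K (x * y) = clk ℚ K x + clk ℚ K y := by
  funext v
  simp [clk]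

/-- pairing of the exponent sums with a vector -/
noncomputable def pair (K : Cx) [Fintype K.V] (a : K.V → ℚ) :
    FreeGroup K.V →* Multiplicative ℚ where
  toFun w := Multiplicative.ofAdd (∑ v, clk ℚ K w v * a v)
  map_one' := by
    rw [clk_one]
    simp
  map_mul' x y := by
    rw [← ofAdd_add, clk_mul, ← Finset.sum_add_distrib]
    congr 1
    refine Finset.sum_congr rfl fun v _ => ?_
    rw [Pi.add_apply, add_mul]

lemma val (K : Cx) [Fintype K.V] (h : K.Pi →* Multiplicative ℚ) (w : FreeGroup K.V) :
    (h (PresentedGroup.mk (Set.range K.r) w)).toAdd =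
      ∑ v, clk ℚ K w v * (h (PresentedGroup.of v)).toAdd := by
  classical
  have key : h.comp (PresentedGroup.mk (Set.range K.r)) =
      pair K (fun v => (h (PresentedGroup.of v)).toAdd) := by
    ext1 v
    change h (PresentedGroup.of v) =
      Multiplicative.ofAdd (∑ u, clk ℚ K (FreeGroup.of v) u * (h (PresentedGroup.of u)).toAdd)
    rw [Finset.sum_eq_single v]
    · unfold clk
      rw [expSum_of, Finsupp.single_eq_same, Int.cast_one, one_mul, ofAdd_toAdd]
    · intro u _ hu
      unfold clk
      rw [expSum_of, Finsupp.single_eq_of_ne hu, Int.cast_zero, zero_mul]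
    · intro hv
      exact absurd (Finset.mem_univ v) hv
  exact congrArg Multiplicative.toAdd (DFunLike.congr_fun key w)

end WCNTx

open WCNTx in
open Pool.Agent.R655.LI (Cx clk clk_sub clk_sub' clk_indep) in
theorem wcnt : WCNT := by
  classical
  intro K L i hL _ _ n hn h
  set M : Matrix K.R K.V ℚ := fun j v => clk ℚ K (K.r j) v with hM
  set a : Fin (n + 1) → K.V → ℚ := fun k v => (h k (PresentedGroup.of v)).toAdd with ha
  -- the rows are independent
  have hrow : LinearIndependent ℚ M.row := by
    rw [Fintype.linearIndependent_iff]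
    intro g hg
    have h3 : ∀ v : K.V, ∑ s : K.R, g s * clk ℚ K (K.r s) v = 0 := by
      intro v
      have h4 := congrFun hg v
      rw [Finset.sum_apply] at h4
      exact h4
    have h5 := clk_indep hL ℚ (fun s : K.R => i.c s) i.c.injective g (by
      intro v
      by_cases hv : v ∈ Set.range i.v
      · obtain ⟨u, rfl⟩ := hv
        rw [← h3 u]
        refine Finset.sum_congr rfl fun s _ => ?_
        rw [← i.comm, clk_sub]
      · refine Finset.sum_eq_zero fun s _ => ?_
        rw [← i.comm, clk_sub' i ℚ _ v hv, mul_zero])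
    exact fun j => congrFun h5 j
  have hrank : M.rank = Fintype.card K.R := hrow.rank_matrix
  have hker : Module.finrank ℚ (LinearMap.ker M.mulVecLin) = n := by
    have h1 := LinearMap.finrank_range_add_finrank_ker M.mulVecLin
    rw [Module.finrank_fintype_fun_eq_card] at h1
    have h2 : Module.finrank ℚ (LinearMap.range M.mulVecLin) = Fintype.card K.R := hrank
    omega
  have hmem : ∀ k, a k ∈ LinearMap.ker M.mulVecLin := by
    intro k
    rw [LinearMap.mem_ker]
    funext j
    have h1 := val K (h k) (K.r j)
    have h2 : PresentedGroup.mk (Set.range K.r) (K.r j) = 1 :=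
      PresentedGroup.one_of_mem (Set.mem_range_self j)
    rw [h2, map_one] at h1
    exact h1.symm
  have hdep : ¬ LinearIndependent ℚ
      (fun k : Fin (n + 1) => (⟨a k, hmem k⟩ : LinearMap.ker M.mulVecLin)) := by
    intro hli
    have h1 := hli.fintype_card_le_finrank
    rw [hker, Fintype.card_fin] at h1
    omega
  obtain ⟨c, hc, k0, hk0⟩ := Fintype.not_linearIndependent_iff.1 hdep
  refine ⟨c, fun h0 => hk0 (congrFun h0 k0), ?_⟩
  have hc' : ∀ v, ∑ k, c k * a k v = 0 := by
    intro v
    have h1 := congrArg (fun z : LinearMap.ker M.mulVecLin => (z : K.V → ℚ) v) hc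
    simpa using h1
  intro g
  obtain ⟨w, rfl⟩ := PresentedGroup.mk_surjective (Set.range K.r) g
  have h2 : ∀ k, (h k (PresentedGroup.mk (Set.range K.r) w)).toAdd =
      ∑ v, clk ℚ K w v * a k v := fun k => val K (h k) w
  simp_rw [h2, Finset.mul_sum]
  rw [Finset.sum_comm]
  refine Finset.sum_eq_zero fun v _ => ?_
  calc ∑ k, c k * (clk ℚ K w v * a k v) = clk ℚ K w v * ∑ k, c k * a k v := by
        rw [Finset.mul_sum]
        exact Finset.sum_congr rfl fun k _ => by ring
    _ = 0 := by rw [hc', mul_zero]

end Pool.Agent.H320.LB
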