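import Pool.Agent.H320.LB.StmW

/-!
helper758 for helper320: derivations of a presented group with given values.
-/

set_option autoImplicit false

open Finset Matrix

namespace Pool.Agent.H320.LB

namespace WDERx

open Pool.Agent.Helper777.Prof (Wr mag mag_m)
open Pool.Agent.R655.LI (fox)

/-- the affine group -/
@[ext] structure Aff {G D : Type} [Group G] [Ring D] (φ : MonoidAlgebra ℤ G →+* D) where
  a : D
  g : G

namespace Aff
variable {G D : Type} [Group G] [Ring D] {φ : MonoidAlgebra ℤ G →+* D}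

noncomputable instance : Mul (Aff φ) :=
  ⟨fun x y => ⟨x.a + φ (MonoidAlgebra.of ℤ G x.g) * y.a, x.g * y.g⟩⟩
noncomputable instance : One (Aff φ) := ⟨⟨0, 1⟩⟩
noncomputable instance : Inv (Aff φ) :=
  ⟨fun x => ⟨-(φ (MonoidAlgebra.of ℤ G x.g⁻¹) * x.a), x.g⁻¹⟩⟩

theorem mul_a (x y : Aff φ) : (x * y).a = x.a + φ (MonoidAlgebra.of ℤ G x.g) * y.a := rfl
theorem mul_g (x y : Aff φ) : (x * y).g = x.g * y.g := rfl
theorem one_a : (1 : Aff φ).a = 0 := rfl
theorem one_g : (1 : Aff φ).g = 1 := rfl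
theorem inv_a (x : Aff φ) : (x⁻¹).a = -(φ (MonoidAlgebra.of ℤ G x.g⁻¹) * x.a) := rfl
theorem inv_g (x : Aff φ) : (x⁻¹).g = x.g⁻¹ := rfl

noncomputable instance : Group (Aff φ) :=
  Group.ofLeftAxioms
    (by
      intro x y z
      ext1
      · rw [mul_a, mul_a, mul_a, mul_a, mul_g, map_mul, map_mul, mul_add, add_assoc, mul_assoc]
      · rw [mul_g, mul_g, mul_g, mul_g, mul_assoc])
    (by
      intro x
      ext1
      · rw [mul_a, one_a, one_g, map_one, map_one, one_mul, zero_add]
      · rw [mul_g, one_g, one_mul])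
    (by
      intro x
      ext1
      · rw [mul_a, inv_a, inv_g, one_a, neg_add_cancel]
      · rw [mul_g, inv_g, one_g, inv_mul_cancel])

end Aff

/-- evaluation of the chains -/
noncomputable def ev {G D V : Type} [Group G] [Ring D] [Fintype V] (φ : MonoidAlgebra ℤ G →+* D)
    (d : V → D) : Wr ℤ G V →* Aff φ where
  toFun w := ⟨∑ x, φ (w.v x) * d x, w.m⟩
  map_one' := by
    apply Aff.ext
    · rw [Aff.one_a]
      refine Finset.sum_eq_zero fun x _ => ?_
      rw [Wr.one_v, Pi.zero_apply, map_zero, zero_mul]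
    · rfl
  map_mul' w w' := by
    apply Aff.ext
    · rw [Aff.mul_a, Finset.mul_sum, ← Finset.sum_add_distrib]
      refine Finset.sum_congr rfl fun x _ => ?_
      rw [Wr.mul_v, Pi.add_apply, Pi.smul_apply, smul_eq_mul, map_add, map_mul, add_mul, mul_assoc]
    · rfl

end WDERx

open WDERx in
open Pool.Agent.Helper777.Prof (Wr mag mag_m) in
open Pool.Agent.R655.LI (fox) in
theorem wder : WDER := by
  classical
  intro K _ D _ φ d hd
  let π : FreeGroup K.V →* K.Pi := PresentedGroup.mk (Set.range K.r)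
  let Ψ : FreeGroup K.V →* Aff φ := (ev φ d).comp (mag π)
  have hΨ : ∀ w, Ψ w = ⟨∑ v, φ (fox K w v) * d v, π w⟩ := by
    intro w
    apply Aff.ext
    · show ∑ x, φ ((mag π w).v x) * d x = ∑ v, φ (fox K w v) * d v
      refine Finset.sum_congr rfl fun x _ => ?_
      congr 2
    · exact mag_m π w
  let f : K.V → Aff φ := fun v => Ψ (FreeGroup.of v)
  have hlift : FreeGroup.lift f = Ψ := by
    ext v
    · simp only [FreeGroup.lift_apply_of, f]
    · simp only [FreeGroup.lift_apply_of, f]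
  have hrel : ∀ r ∈ Set.range K.r, FreeGroup.lift f r = 1 := by
    rintro _ ⟨j, rfl⟩
    rw [hlift, hΨ, hd j]
    apply Aff.ext
    · rfl
    · show π (K.r j) = 1
      exact PresentedGroup.one_of_mem ⟨j, rfl⟩
  let Θ : K.Pi →* Aff φ := PresentedGroup.toGroup hrel
  have hΘ : ∀ v, Θ (PresentedGroup.of v) = Ψ (FreeGroup.of v) := fun v =>
    PresentedGroup.toGroup.of hrel
  have hgen : ∀ v, Ψ (FreeGroup.of v) = ⟨d v, PresentedGroup.of v⟩ := by
    intro v
    show ev φ d (mag π (FreeGroup.of v)) = _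
    have h1 : mag π (FreeGroup.of v) = ⟨Pi.single v 1, π (FreeGroup.of v)⟩ := by
      unfold mag
      rw [FreeGroup.lift_apply_of]
    rw [h1]
    apply Aff.ext
    · show ∑ x, φ ((Pi.single v 1 : K.V → MonoidAlgebra ℤ K.Pi) x) * d x = d v
      rw [Finset.sum_eq_single v]
      · rw [Pi.single_eq_same, map_one, one_mul]
      · intro b _ hb
        rw [Pi.single_eq_of_ne hb, map_zero, zero_mul]
      · intro h
        exact absurd (Finset.mem_univ v) h
    · rfl
  let pr : Aff φ →* K.Pi := ⟨⟨fun x => x.g, rfl⟩, fun _ _ => rfl⟩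
  have hpr : pr.comp Θ = MonoidHom.id K.Pi := by
    refine PresentedGroup.ext fun v => ?_
    rw [MonoidHom.comp_apply, hΘ, hgen]
    rfl
  have hg : ∀ g, (Θ g).g = g := fun g => DFunLike.congr_fun hpr g
  refine ⟨fun g => (Θ g).a, ?_, ?_⟩
  · intro g h
    show (Θ (g * h)).a = (Θ g).a + φ (MonoidAlgebra.of ℤ K.Pi g) * (Θ h).a
    rw [map_mul, Aff.mul_a, hg]
  · intro v
    show (Θ (PresentedGroup.of v)).a = d v
    rw [hΘ, hgen]

end Pool.Agent.H320.LB
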