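import Pool.Agent.H320.LB.StmW

/-!
helper320: asphericity of 2-complexes whose group ring embeds in a division ring.
-/

set_option autoImplicit false

open Finset Matrix

namespace Pool.Agent.H320.LB

open Pool.Agent.R655.LI (fox Sub Asph)

/-- all derivations on the subgroup `T` are inner -/
def Inner {G D : Type} [Group G] [Ring D] (φ : MonoidAlgebra ℤ G →+* D) (T : Subgroup G) : Prop :=
  T ≠ ⊥ ∧ ∀ δ : G → D,
    (∀ s ∈ T, ∀ t ∈ T, δ (s * t) = δ s + φ (MonoidAlgebra.of ℤ G s) * δ t) →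
    ∃ a : D, ∀ t ∈ T, δ t = (φ (MonoidAlgebra.of ℤ G t) - 1) * a

section der

variable {G D : Type} [Group G] [Ring D] {φ : MonoidAlgebra ℤ G →+* D}

theorem IsDer.one {δ : G → D} (h : IsDer φ δ) : δ 1 = 0 := by
  have h1 := h 1 1
  rw [mul_one, map_one, map_one, one_mul] at h1
  exact left_eq_add.1 h1

/-- the subgroup where two derivations agree -/
def eqSub {δ δ' : G → D} (h : IsDer φ δ) (h' : IsDer φ δ') : Subgroup G where
  carrier := {g | δ g = δ' g}
  one_mem' := h.one.trans h'.one.symm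
  mul_mem' {a b} ha hb := by
    change δ (a * b) = δ' (a * b)
    rw [h, h', show δ a = δ' a from ha, show δ b = δ' b from hb]
  inv_mem' {a} ha := by
    have e1 := h a⁻¹ a
    have e2 := h' a⁻¹ a
    rw [inv_mul_cancel, h.one] at e1
    rw [inv_mul_cancel, h'.one, ← show δ a = δ' a from ha] at e2
    change δ a⁻¹ = δ' a⁻¹
    rw [eq_neg_of_add_eq_zero_left e1.symm, eq_neg_of_add_eq_zero_left e2.symm]

theorem der_ext {δ δ' : G → D} (h : IsDer φ δ) (h' : IsDer φ δ') {ι : Type} {T : ι → Subgroup G}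
    (hT : (⨆ i, T i) = ⊤) (he : ∀ i, ∀ t ∈ T i, δ t = δ' t) (g : G) : δ g = δ' g := by
  have h1 : (⨆ i, T i) ≤ eqSub h h' := iSup_le fun i t ht => he i t ht
  exact h1 (hT.symm ▸ Subgroup.mem_top g)

end der

theorem der_ext_gen {K : Pool.Agent.R655.LI.Cx} {D : Type} [Ring D]
    {φ : MonoidAlgebra ℤ K.Pi →+* D} {δ δ' : K.Pi → D} (h : IsDer φ δ) (h' : IsDer φ δ')
    (he : ∀ v, δ (PresentedGroup.of v) = δ' (PresentedGroup.of v)) (g : K.Pi) : δ g = δ' g := by
  have h1 : Subgroup.closure (Set.range (PresentedGroup.of (rels := Set.range K.r))) ≤ eqSub h h' := by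
    rw [Subgroup.closure_le]
    rintro _ ⟨v, rfl⟩
    exact he v
  rw [PresentedGroup.closure_range_of] at h1
  exact h1 (Subgroup.mem_top g)

theorem asph_of (wlin : WLIN) (wder : WDER) (whom : WHOM) (wcnt : WCNT)
    (K L : Pool.Agent.R655.LI.Cx) (i : Sub K L) (hL : L.Contractible) [Fintype K.V] [Fintype K.R]
    (n : ℕ) (hn : Fintype.card K.V = n + Fintype.card K.R) (D : Type) [DivisionRing D]
    (φ : MonoidAlgebra ℤ K.Pi →+* D) (hφ : Function.Injective φ) (T : Fin (n + 1) → Subgroup K.Pi)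
    (hT : (⨆ i, T i) = ⊤) (hI : ∀ i, Inner φ (T i))
    (hf : ∀ i, ∃ f : K.Pi →* Multiplicative ℚ, ∃ t ∈ T i, f t ≠ 1) : Asph K := by
  classical
  unfold Asph
  rw [injective_iff_map_eq_zero]
  intro c hc
  by_contra hc0
  let M : Matrix K.R K.V D := Matrix.of fun j v => φ (fox K (K.r j) v)
  have hu : ∃ u : K.R → D, u ≠ 0 ∧ u ᵥ* M = 0 := by
    refine ⟨fun j => φ (c j), fun h => hc0 ?_, ?_⟩
    · ext1 j
      exact hφ ((congrFun h j).trans (map_zero φ).symm)
    · funext v
      change ∑ j, φ (c j) * φ (fox K (K.r j) v) = 0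
      have h1 := congrFun hc v
      rw [Finsupp.linearCombination_apply,
        Finsupp.sum_fintype c (fun i a => a • fox K (K.r i)) (fun _ => zero_smul _ _),
        Finset.sum_apply] at h1
      have h2 := congrArg φ h1
      rw [map_sum] at h2
      rw [← map_zero φ]
      refine Eq.trans ?_ h2
      refine Finset.sum_congr rfl fun j _ => ?_
      rw [Pi.smul_apply, smul_eq_mul, map_mul]
  -- the derivations
  have hder : ∀ d : {d : K.V → D // M *ᵥ d = 0}, ∃ δ : K.Pi → D, IsDer φ δ ∧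
      ∀ v, δ (PresentedGroup.of v) = d.1 v := fun d => wder K D φ d.1 fun j => congrFun d.2 j
  choose δ hδ hδv using hder
  have hin : ∀ (d : {d : K.V → D // M *ᵥ d = 0}) (k : Fin (n + 1)), ∃ a : D, ∀ t ∈ T k,
      δ d t = (φ (MonoidAlgebra.of ℤ K.Pi t) - 1) * a := fun d k =>
    (hI k).2 (δ d) fun s _ t _ => hδ d s t
  choose F hF using hin
  have hne : ∀ k, ∃ t ∈ T k, φ (MonoidAlgebra.of ℤ K.Pi t) - 1 ≠ 0 := by
    intro k
    obtain ⟨⟨t, ht⟩, ht1'⟩ := Subgroup.ne_bot_iff_exists_ne_one.1 (hI k).1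
    have ht1 : t ≠ 1 := fun h => ht1' (Subtype.ext h)
    refine ⟨t, ht, fun h => ht1 ?_⟩
    rw [sub_eq_zero, ← map_one φ] at h
    have h2 := hφ h
    rw [← map_one (MonoidAlgebra.of ℤ K.Pi)] at h2
    exact MonoidAlgebra.of_injective h2
  have huniq : ∀ (d : {d : K.V → D // M *ᵥ d = 0}) (k : Fin (n + 1)) (a : D),
      (∀ t ∈ T k, δ d t = (φ (MonoidAlgebra.of ℤ K.Pi t) - 1) * a) → F d k = a := by
    intro d k a ha
    obtain ⟨t, ht, h0⟩ := hne k
    exact mul_left_cancel₀ h0 ((hF d k t ht).symm.trans (ha t ht))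
  have hsurj := wlin D K.V K.R M n hn hu F ?_ ?_ ?_
  · have key : ∀ k : Fin (n + 1), ∃ h : K.Pi →* Multiplicative ℚ,
        (∃ t ∈ T k, h t ≠ 1) ∧ ∀ j, j ≠ k → ∀ t ∈ T j, h t = 1 := by
      intro k
      obtain ⟨d, hd⟩ := hsurj (Pi.single k 1)
      obtain ⟨f, t, ht, hft⟩ := hf k
      obtain ⟨h, h1, h2⟩ := whom K.Pi D φ hφ _ T hT k (δ d) (hδ d) (fun t ht => by
        rw [hF d k t ht, hd, Pi.single_eq_same, mul_one]) (fun j hj t ht => by
        rw [hF d j t ht, hd, Pi.single_eq_of_ne hj, mul_zero]) f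
      exact ⟨h, ⟨t, ht, by rwa [h1 t ht]⟩, h2⟩
    choose h h1 h2 using key
    obtain ⟨a, ha, hrel⟩ := wcnt K L i hL n hn h
    obtain ⟨k, hk⟩ := Function.ne_iff.1 ha
    obtain ⟨t, ht, hne1⟩ := h1 k
    have h3 := hrel t
    rw [Finset.sum_eq_single k] at h3
    · rcases mul_eq_zero.1 h3 with h4 | h4
      · exact hk h4
      · exact hne1 (Multiplicative.toAdd.injective h4)
    · intro j _ hj
      rw [h2 j k hj.symm t ht]
      exact mul_zero _
    · intro h
      exact absurd (Finset.mem_univ k) h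
  · intro x y z hz
    have h1 : ∀ g, δ z g = δ x g + δ y g := by
      intro g
      refine der_ext_gen (hδ z) (δ' := fun g => δ x g + δ y g) ?_ ?_ g
      · intro a b
        change δ x (a * b) + δ y (a * b) = δ x a + δ y a + _ * (δ x b + δ y b)
        rw [hδ x, hδ y, mul_add]
        abel
      · intro v
        change δ z _ = δ x _ + δ y _
        rw [hδv, hδv, hδv, hz]
        rfl
    funext k
    refine huniq z k _ fun t ht => ?_
    rw [h1, hF x k t ht, hF y k t ht]
    change _ = _ * (F x k + F y k)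
    rw [mul_add]
  · intro a x y hy k
    have h1 : ∀ g, δ y g = δ x g * a := by
      intro g
      refine der_ext_gen (hδ y) (δ' := fun g => δ x g * a) ?_ ?_ g
      · intro b b'
        change δ x (b * b') * a = δ x b * a + _ * (δ x b' * a)
        rw [hδ x, add_mul, mul_assoc]
      · intro v
        change δ y _ = δ x _ * a
        rw [hδv, hδv, hy]
    refine huniq y k _ fun t ht => ?_
    rw [h1, hF x k t ht, mul_assoc]
  · intro x y hxy
    have h1 : ∀ g, δ x g = δ y g := by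
      refine der_ext (hδ x) (hδ y) hT fun k t ht => ?_
      rw [hF x k t ht, hF y k t ht, hxy]
    apply Subtype.ext
    funext v
    rw [← hδv x v, ← hδv y v, h1]

end Pool.Agent.H320.LB
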