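import Pool.Agent.H320.LB.StmW

/-!
helper758 for helper320: homomorphisms to the rational numbers from special derivations.
-/

set_option autoImplicit false

open Finset Matrix

namespace Pool.Agent.H320.LB

namespace WHOMx

/-- the homomorphism `g ↦ 1 + f g ε` -/
noncomputable def dh {G : Type} [Group G] (f : G →* Multiplicative ℚ) : G →* DualNumber ℚ where
  toFun g := TrivSqZeroExt.inl 1 + TrivSqZeroExt.inr (f g).toAdd
  map_one' := by
    rw [map_one, toAdd_one, TrivSqZeroExt.inr_zero, add_zero]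
    rfl
  map_mul' g h := by
    apply TrivSqZeroExt.ext
    · simp
    · simp [add_comm]

/-- its extension to the group ring -/
noncomputable def rh {G : Type} [Group G] (f : G →* Multiplicative ℚ) :
    MonoidAlgebra ℤ G →ₐ[ℤ] DualNumber ℚ := MonoidAlgebra.lift ℤ (DualNumber ℚ) G (dh f)

theorem rh_of {G : Type} [Group G] (f : G →* Multiplicative ℚ) (g : G) :
    rh f (MonoidAlgebra.of ℤ G g) = dh f g := by
  unfold rh
  exact MonoidAlgebra.lift_of _ _

theorem dh_fst {G : Type} [Group G] (f : G →* Multiplicative ℚ) (g : G) : (dh f g).fst = 1 := by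
  simp [dh]

theorem dh_snd {G : Type} [Group G] (f : G →* Multiplicative ℚ) (g : G) :
    (dh f g).snd = (f g).toAdd := by
  simp [dh]

end WHOMx

open WHOMx in
theorem whom : WHOM := by
  intro G D _ _ φ hφ ι T hT i δ hδ h1 h2 f
  have hone : δ 1 = 0 := by
    have := hδ 1 1
    rw [map_one, map_one, one_mul, one_mul] at this
    exact left_eq_add.1 this
  have hinv : ∀ g, δ g⁻¹ = - (φ (MonoidAlgebra.of ℤ G g⁻¹) * δ g) := by
    intro g
    have := hδ g⁻¹ g
    rw [inv_mul_cancel, hone] at this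
    exact eq_neg_of_add_eq_zero_left this.symm
  let H : Subgroup G :=
    { carrier := {g | ∃ x, δ g = φ x ∧ (rh f x).fst = 0}
      mul_mem' := by
        rintro g h ⟨x, hx1, hx2⟩ ⟨y, hy1, hy2⟩
        refine ⟨x + MonoidAlgebra.of ℤ G g * y, ?_, ?_⟩
        · rw [hδ, hx1, hy1, map_add, map_mul]
        · rw [map_add, map_mul, TrivSqZeroExt.fst_add, TrivSqZeroExt.fst_mul, hx2, hy2, mul_zero,
            add_zero]
      one_mem' := ⟨0, by rw [hone, map_zero], by rw [map_zero, TrivSqZeroExt.fst_zero]⟩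
      inv_mem' := by
        rintro g ⟨x, hx1, hx2⟩
        refine ⟨-(MonoidAlgebra.of ℤ G g⁻¹ * x), ?_, ?_⟩
        · rw [hinv, hx1, map_neg, map_mul]
        · rw [map_neg, map_mul, TrivSqZeroExt.fst_neg, TrivSqZeroExt.fst_mul, hx2, mul_zero,
            neg_zero] }
  have hTi : ∀ t ∈ T i, δ t = φ (MonoidAlgebra.of ℤ G t - 1) := by
    intro t ht
    rw [h1 t ht, map_sub, map_one]
  have hH : H = ⊤ := by
    rw [eq_top_iff, ← hT]
    refine iSup_le fun j => ?_
    intro t ht
    by_cases hj : j = i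
    · subst hj
      refine ⟨MonoidAlgebra.of ℤ G t - 1, hTi t ht, ?_⟩
      rw [map_sub, map_one, rh_of, TrivSqZeroExt.fst_sub, dh_fst, TrivSqZeroExt.fst_one, sub_self]
    · exact ⟨0, by rw [h2 j hj t ht, map_zero], by rw [map_zero, TrivSqZeroExt.fst_zero]⟩
  have hall : ∀ g, ∃ x, δ g = φ x ∧ (rh f x).fst = 0 := by
    intro g
    have : g ∈ H := by rw [hH]; trivial
    exact this
  choose γ hγ1 hγ2 using hall
  have hγm : ∀ g h, γ (g * h) = γ g + MonoidAlgebra.of ℤ G g * γ h := by
    intro g h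
    apply hφ
    rw [← hγ1, hδ, map_add, map_mul, ← hγ1, ← hγ1]
  have hγo : γ 1 = 0 := by
    apply hφ
    rw [← hγ1, hone, map_zero]
  let h : G →* Multiplicative ℚ :=
    { toFun := fun g => Multiplicative.ofAdd (rh f (γ g)).snd
      map_one' := by
        rw [hγo, map_zero, TrivSqZeroExt.snd_zero]
        rfl
      map_mul' := by
        intro g g'
        rw [hγm, map_add, map_mul, rh_of, TrivSqZeroExt.snd_add, TrivSqZeroExt.snd_mul, dh_fst,
          hγ2 g', one_smul, MulOpposite.op_zero, zero_smul, add_zero, ofAdd_add] }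
  refine ⟨h, ?_, ?_⟩
  · intro t ht
    have h3 : γ t = MonoidAlgebra.of ℤ G t - 1 := by
      apply hφ
      rw [← hγ1, hTi t ht]
    show Multiplicative.ofAdd (rh f (γ t)).snd = f t
    rw [h3, map_sub, map_one, rh_of, TrivSqZeroExt.snd_sub, dh_snd, TrivSqZeroExt.snd_one, sub_zero,
      ofAdd_toAdd]
  · intro j hj t ht
    have h3 : γ t = 0 := by
      apply hφ
      rw [← hγ1, h2 j hj t ht, map_zero]
    show Multiplicative.ofAdd (rh f (γ t)).snd = 1
    rw [h3, map_zero, TrivSqZeroExt.snd_zero]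
    rfl

end Pool.Agent.H320.LB
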