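import Pool.Agent.H320.LB.StmW

/-!
helper758 for helper320: linear algebra over a division ring.
-/

set_option autoImplicit false

open Finset Matrix

namespace Pool.Agent.H320.LB

namespace WLINx

open MulOpposite

theorem finrank_self (D : Type) [DivisionRing D] : Module.finrank Dᵐᵒᵖ D = 1 := by
  rw [finrank_eq_one_iff_of_nonzero' (1 : D) one_ne_zero]
  intro w
  exact ⟨op w, by rw [op_smul_eq_mul, one_mul]⟩

theorem finite_self (D : Type) [DivisionRing D] : Module.Finite Dᵐᵒᵖ D :=
  FiniteDimensional.of_finrank_eq_succ (n := 0) (finrank_self D)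

theorem finrank_fun (D : Type) [DivisionRing D] (V : Type) [Fintype V] :
    Module.finrank Dᵐᵒᵖ (V → D) = Fintype.card V := by
  have := finite_self D
  rw [Module.finrank_pi_fintype]
  simp [finrank_self]

/-- multiplication with a matrix is linear for the right structure -/
def mv {D : Type} [DivisionRing D] {V R : Type} [Fintype V] (M : Matrix R V D) :
    (V → D) →ₗ[Dᵐᵒᵖ] (R → D) where
  toFun d := M *ᵥ d
  map_add' := Matrix.mulVec_add M
  map_smul' c d := Matrix.mulVec_smul M c d

/-- the functional of a row vector -/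
def dp {D : Type} [DivisionRing D] {R : Type} [Fintype R] (u : R → D) :
    (R → D) →ₗ[Dᵐᵒᵖ] D where
  toFun y := u ⬝ᵥ y
  map_add' := dotProduct_add u
  map_smul' c y := by
    rw [RingHom.id_apply, dotProduct_smul]

end WLINx

open WLINx in
theorem wlin : WLIN := by
  classical
  intro D _ V R _ _ M n hcard hu F hF1 hF2 hF3
  obtain ⟨u, hu0, huM⟩ := hu
  have hfin := finite_self D
  let L := mv M
  have h1 := LinearMap.finrank_range_add_finrank_ker L
  rw [finrank_fun] at h1
  have h2 : LinearMap.range L ≤ LinearMap.ker (dp u) := by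
    rintro _ ⟨d, rfl⟩
    rw [LinearMap.mem_ker]
    show u ⬝ᵥ (M *ᵥ d) = 0
    rw [Matrix.dotProduct_mulVec, huM, zero_dotProduct]
  have h3 : LinearMap.ker (dp u) < ⊤ := by
    rw [lt_top_iff_ne_top]
    intro h
    apply hu0
    funext j
    have h4 : Pi.single j (1 : D) ∈ LinearMap.ker (dp u) := by rw [h]; trivial
    rw [LinearMap.mem_ker] at h4
    have h5 : u ⬝ᵥ Pi.single j (1 : D) = 0 := h4
    rw [dotProduct_single, mul_one] at h5
    exact h5
  have h4 := Submodule.finrank_lt h3.ne
  rw [finrank_fun] at h4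
  have h5 := Submodule.finrank_mono h2
  have h6 : n + 1 ≤ Module.finrank Dᵐᵒᵖ (LinearMap.ker L) := by omega
  let F' : LinearMap.ker L →ₗ[Dᵐᵒᵖ] (Fin (n + 1) → D) :=
    { toFun := fun x => F ⟨x.1, LinearMap.mem_ker.1 x.2⟩
      map_add' := fun x y => hF1 _ _ _ rfl
      map_smul' := fun c x => by
        funext i
        refine (hF2 c.unop ⟨x.1, LinearMap.mem_ker.1 x.2⟩ _ (fun v => ?_) i).trans ?_
        · rfl
        · rfl }
  have hinj : Function.Injective F' := by
    intro x y h
    have := hF3 h
    exact Subtype.ext (congrArg Subtype.val this)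
  have h7 := LinearMap.finrank_le_finrank_of_injective hinj
  rw [finrank_fun, Fintype.card_fin] at h7
  have h8 : Module.finrank Dᵐᵒᵖ (LinearMap.ker L) = Module.finrank Dᵐᵒᵖ (Fin (n + 1) → D) := by
    rw [finrank_fun, Fintype.card_fin]
    omega
  have h9 := (LinearMap.injective_iff_surjective_of_finrank_eq_finrank h8).1 hinj
  intro y
  obtain ⟨x, hx⟩ := h9 y
  exact ⟨_, hx⟩

end Pool.Agent.H320.LB
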